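import Pool.Agent.Lib.MP_4a09cd_ag.Internal

set_option autoImplicit false

open MvPolynomial

namespace Pool.Agent.Lib.MP_4a09cd_ag

universe u v

variable {K : Type u} [Field K]

section Poly

variable {W : Type v} [AddCommGroup W] [Module K W]

@[simp] theorem evalAt_C (w : W) (a : K) : evalAt K w (C a) = a := by
  simp [evalAt]

@[simp] theorem evalAt_X (w : W) (χ : Module.Dual K W) : evalAt K w (X χ) = χ w := by
  simp [evalAt]

@[simp] theorem dirD_C (w : W) (a : K) : dirD K w (C a) = 0 := by
  simp [dirD]

@[simp] theorem dirD_X (w : W) (χ : Module.Dual K W) : dirD K w (X χ) = C (χ w) := by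
  simp [dirD]

theorem dirD_add (w w' : W)
    (f : MvPolynomial (Module.Dual K W) K) :
    dirD K (w + w') f = dirD K w f + dirD K w' f := by
  have : dirD K (w + w') = dirD K w + dirD K w' := by
    apply MvPolynomial.derivation_ext
    intro χ
    simp [dirD]
  rw [this]; rfl

theorem dirD_smul (a : K) (w : W)
    (f : MvPolynomial (Module.Dual K W) K) :
    dirD K (a • w) f = a • dirD K w f := by
  have : dirD K (a • w) = a • dirD K w := by
    apply MvPolynomial.derivation_ext
    intro χ
    simp [dirD, MvPolynomial.smul_eq_C_mul]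
  rw [this]; rfl

/-- The differential of `f` at `v`, a linear functional on `W`. -/
noncomputable def differential (v : W) (f : MvPolynomial (Module.Dual K W) K) :
    W →ₗ[K] K where
  toFun w := evalAt K v (dirD K w f)
  map_add' w w' := by rw [dirD_add, map_add]
  map_smul' a w := by
    rw [dirD_smul, MvPolynomial.smul_eq_C_mul, map_mul, evalAt_C]; rfl

theorem differential_apply (v w : W) (f : MvPolynomial (Module.Dual K W) K) :
    differential v f w = evalAt K v (dirD K w f) := rfl

/-- `differential` as a linear map in `f`. -/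
noncomputable def differentialₗ (v : W) :
    MvPolynomial (Module.Dual K W) K →ₗ[K] Module.Dual K W where
  toFun f := differential v f
  map_add' f g := by
    ext w; simp [differential_apply]
  map_smul' a f := by
    ext w
    simp only [differential_apply, LinearMap.smul_apply, smul_eq_mul, RingHom.id_apply]
    rw [Derivation.map_smul, MvPolynomial.smul_eq_C_mul, map_mul, evalAt_C]

/-- Evaluate a polynomial along a polynomial path. -/
theorem eval_aeval_path (f : MvPolynomial (Module.Dual K W) K)
    (P : Module.Dual K W → Polynomial K) (t : K) (w : W)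
    (h : ∀ χ, (P χ).eval t = χ w) :
    (MvPolynomial.aeval P f).eval t = evalAt K w f := by
  induction f using MvPolynomial.induction_on with
  | C a => simp
  | add p q hp hq => simp [hp, hq]
  | mul_X p χ hp => simp [hp, h χ]

theorem eval_derivative_aeval_path (f : MvPolynomial (Module.Dual K W) K)
    (P : Module.Dual K W → Polynomial K) (t : K) (v w : W)
    (h0 : ∀ χ, (P χ).eval t = χ v) (h1 : ∀ χ, (P χ).derivative.eval t = χ w) :
    (Polynomial.derivative (MvPolynomial.aeval P f)).eval t = evalAt K v (dirD K w f) := by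
  induction f using MvPolynomial.induction_on with
  | C a => simp
  | add p q hp hq => simp [hp, hq]
  | mul_X p χ hp =>
    have := eval_aeval_path p P t v h0
    simp only [map_mul, aeval_X, Polynomial.derivative_mul, Polynomial.eval_add,
      Polynomial.eval_mul, hp, this, h0, h1, Derivation.leibniz, dirD_X, smul_eq_mul,
      map_add, evalAt_X, evalAt_C]
    ring

/-- A cubic polynomial path in `W`, viewed through linear functionals. -/
noncomputable def cubicPath (c : Fin 4 → W) (χ : Module.Dual K W) : Polynomial K :=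
  Polynomial.C (χ (c 0)) + Polynomial.C (χ (c 1)) * Polynomial.X
    + Polynomial.C (χ (c 2)) * Polynomial.X ^ 2 + Polynomial.C (χ (c 3)) * Polynomial.X ^ 3

theorem cubicPath_eval (c : Fin 4 → W) (χ : Module.Dual K W) (t : K) :
    (cubicPath c χ).eval t = χ (c 0 + t • c 1 + t ^ 2 • c 2 + t ^ 3 • c 3) := by
  simp [cubicPath]; ring

theorem cubicPath_eval_zero (c : Fin 4 → W) (χ : Module.Dual K W) :
    (cubicPath c χ).eval 0 = χ (c 0) := by
  simp [cubicPath]

theorem cubicPath_derivative_zero (c : Fin 4 → W) (χ : Module.Dual K W) :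
    (cubicPath c χ).derivative.eval 0 = χ (c 1) := by
  simp [cubicPath]

/-- If `q ≠ 0` and `p` vanishes wherever `q` does not, then `p = 0` (infinite fields). -/
theorem poly_eq_zero_of_generic [Infinite K] (p q : Polynomial K) (hq : q ≠ 0)
    (h : ∀ t, q.eval t ≠ 0 → p.eval t = 0) : p = 0 := by
  have : q * p = 0 := by
    apply Polynomial.funext
    intro t
    by_cases ht : q.eval t = 0
    · simp [ht]
    · simp [h t ht]
  exact (mul_eq_zero.mp this).resolve_left hq

/-- The key criterion: if a function `f` vanishes along (a generic part of) a cubic path, then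
`∂_{c 1} f (c 0) = 0`. -/
theorem dirD_eq_zero_of_path [Infinite K] (f : MvPolynomial (Module.Dual K W) K)
    (c : Fin 4 → W) (q : Polynomial K) (hq : q ≠ 0)
    (h : ∀ t, q.eval t ≠ 0 → evalAt K (c 0 + t • c 1 + t ^ 2 • c 2 + t ^ 3 • c 3) f = 0) :
    evalAt K (c 0) (dirD K (c 1) f) = 0 := by
  have h0 : MvPolynomial.aeval (cubicPath c) f = 0 := by
    apply poly_eq_zero_of_generic _ q hq
    intro t ht
    rw [eval_aeval_path f (cubicPath c) t _ (fun χ => cubicPath_eval c χ t)]
    exact h t ht
  rw [← eval_derivative_aeval_path f (cubicPath c) 0 (c 0) (c 1)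
    (fun χ => cubicPath_eval_zero c χ) (fun χ => cubicPath_derivative_zero c χ), h0]
  simp

/-- If a function `f` vanishes along (a generic part of) a cubic path, it vanishes at `c 0`. -/
theorem evalAt_eq_zero_of_path [Infinite K] (f : MvPolynomial (Module.Dual K W) K)
    (c : Fin 4 → W) (q : Polynomial K) (hq : q ≠ 0)
    (h : ∀ t, q.eval t ≠ 0 → evalAt K (c 0 + t • c 1 + t ^ 2 • c 2 + t ^ 3 • c 3) f = 0) :
    evalAt K (c 0) f = 0 := by
  have h0 : MvPolynomial.aeval (cubicPath c) f = 0 := by
    apply poly_eq_zero_of_generic _ q hq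
    intro t ht
    rw [eval_aeval_path f (cubicPath c) t _ (fun χ => cubicPath_eval c χ t)]
    exact h t ht
  rw [← eval_aeval_path f (cubicPath c) 0 (c 0)
    (fun χ => cubicPath_eval_zero c χ), h0]
  simp

/-- Composition of a polynomial function with a linear map. -/
noncomputable def pullback {W' : Type v} [AddCommGroup W'] [Module K W'] (A : W →ₗ[K] W')
    (f : MvPolynomial (Module.Dual K W') K) : MvPolynomial (Module.Dual K W) K :=
  MvPolynomial.rename (fun χ : Module.Dual K W' => (χ ∘ₗ A : Module.Dual K W)) f

theorem evalAt_pullback {W' : Type v} [AddCommGroup W'] [Module K W'] (A : W →ₗ[K] W')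
    (f : MvPolynomial (Module.Dual K W') K) (w : W) :
    evalAt K w (pullback A f) = evalAt K (A w) f := by
  simp only [evalAt, pullback, MvPolynomial.eval_rename]
  rfl

theorem dirD_pullback {W' : Type v} [AddCommGroup W'] [Module K W'] (A : W →ₗ[K] W')
    (f : MvPolynomial (Module.Dual K W') K) (v w : W) :
    evalAt K v (dirD K w (pullback A f)) = evalAt K (A v) (dirD K (A w) f) := by
  induction f using MvPolynomial.induction_on with
  | C a => simp [pullback]
  | add p q hp hq =>
    simp only [pullback, map_add] at hp hq ⊢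
    rw [hp, hq]
  | mul_X p χ hp =>
    have h1 := evalAt_pullback A p v
    simp only [pullback] at h1 hp ⊢
    simp only [map_mul, rename_X, Derivation.leibniz, dirD_X, smul_eq_mul,
      map_add, evalAt_X, evalAt_C, hp, h1]
    rfl

theorem isTopologicalBasis_zariski :
    @TopologicalSpace.IsTopologicalBasis W (zariski K W)
      (insert Set.univ {U | ∃ f : MvPolynomial (Module.Dual K W) K,
        U = {w | evalAt K w f ≠ 0}}) := by
  let _ : TopologicalSpace W := zariski K W
  apply TopologicalSpace.isTopologicalBasis_of_subbasis_of_inter rfl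
  rintro _ ⟨f, rfl⟩ _ ⟨g, rfl⟩
  refine ⟨f * g, ?_⟩
  ext w
  simp [not_or]

theorem isOpen_zariski_iff (U : Set W) :
    @IsOpen W (zariski K W) U ↔ ∀ w ∈ U, ∃ f : MvPolynomial (Module.Dual K W) K,
      evalAt K w f ≠ 0 ∧ ∀ w', evalAt K w' f ≠ 0 → w' ∈ U := by
  let _ : TopologicalSpace W := zariski K W
  rw [isTopologicalBasis_zariski.isOpen_iff]
  constructor
  · intro h w hw
    obtain ⟨t, ht, hwt, htU⟩ := h w hw
    rcases ht with rfl | ⟨f, rfl⟩
    · exact ⟨1, by simp, fun w' _ => htU (Set.mem_univ _)⟩
    · exact ⟨f, hwt, fun w' hw' => htU hw'⟩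
  · intro h w hw
    obtain ⟨f, hf, hfU⟩ := h w hw
    exact ⟨{w | evalAt K w f ≠ 0}, Or.inr ⟨f, rfl⟩, hf, fun w' hw' => hfU w' hw'⟩

end Poly

end Pool.Agent.Lib.MP_4a09cd_ag
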