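import Pool.Agent.Lib.MP_4a09cd_ag.NonCoiso

set_option autoImplicit false

open MvPolynomial

namespace Pool.Agent.Lib.MP_4a09cd_ag

universe u v

variable {K : Type u} [Field K]

section General

variable {V : Type v} [AddCommGroup V] [Module K V] {k : ℕ}

theorem isClosed_zero (f : MvPolynomial (Module.Dual K (Fin k → V)) K) :
    IsClosed {M : Gr K V k | ∀ u, IsFrame u M → evalAt K u f = 0} := by
  rw [← isOpen_compl_iff, isOpen_gr_iff]
  intro v hv hvU
  have hvU' : ¬ ∀ u, IsFrame u (spanPoint ⟨v, hv⟩) → evalAt K u f = 0 := hvU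
  push Not at hvU'
  obtain ⟨u, hu, hfu⟩ := hvU'
  obtain ⟨A, hA, hAu⟩ := exists_act_eq_of_isFrame (isFrame_spanPoint v hv) hu
  refine ⟨pullback (MP_4a09cd_ag.act A) f, ?_, ?_⟩
  · rw [evalAt_pullback, hAu]; exact hfu
  · intro v' hv' hfv'
    rw [evalAt_pullback] at hfv'
    intro hall
    exact hfv' (hall _ ((isFrame_spanPoint v' hv').act hA))

/-- A set of points of the Grassmannian any two of which are joined by a cubic path of frames of
points of the set is irreducible. -/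
theorem isPreirreducible_of_paths [Infinite K] (S0 : Set (Gr K V k))
    (h : ∀ M1 ∈ S0, ∀ M2 ∈ S0, ∃ c : Fin 4 → (Fin k → V), IsFrame (c 0) M1 ∧
      IsFrame (c 0 + (1 : K) • c 1 + (1 : K) ^ 2 • c 2 + (1 : K) ^ 3 • c 3) M2 ∧
      ∀ t : K, ∃ M ∈ S0, IsFrame (c 0 + t • c 1 + t ^ 2 • c 2 + t ^ 3 • c 3) M) :
    IsPreirreducible S0 := by
  rintro U1 U2 hU1 hU2 ⟨M1, hM1, hM1U⟩ ⟨M2, hM2, hM2U⟩
  obtain ⟨c, hc0, hc1, hct⟩ := h M1 hM1 M2 hM2
  rw [isOpen_gr_iff] at hU1 hU2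
  obtain ⟨f1, hf1, hfU1⟩ := hU1 _ hc0.1 (by rw [hc0.eq_spanPoint]; exact hM1U)
  obtain ⟨f2, hf2, hfU2⟩ := hU2 _ hc1.1 (by rw [hc1.eq_spanPoint]; exact hM2U)
  have e1 : ∀ (f : MvPolynomial (Module.Dual K (Fin k → V)) K) (t : K),
      (MvPolynomial.aeval (cubicPath c) f).eval t
        = evalAt K (c 0 + t • c 1 + t ^ 2 • c 2 + t ^ 3 • c 3) f := fun f t =>
    eval_aeval_path f (cubicPath c) t _ (fun χ => cubicPath_eval c χ t)
  have h1 : MvPolynomial.aeval (cubicPath c) f1 ≠ 0 := by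
    intro h0
    apply hf1
    have := e1 f1 0
    rw [h0] at this
    simpa using this.symm
  have h2 : MvPolynomial.aeval (cubicPath c) f2 ≠ 0 := by
    intro h0
    apply hf2
    have := e1 f2 1
    rw [h0] at this
    simpa using this.symm
  have h3 := mul_ne_zero h1 h2
  obtain ⟨t, ht⟩ : ∃ t : K, (MvPolynomial.aeval (cubicPath c) f1
      * MvPolynomial.aeval (cubicPath c) f2).eval t ≠ 0 := by
    by_contra hne
    push Not at hne
    apply h3
    apply Polynomial.funext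
    intro t
    rw [hne t, Polynomial.eval_zero]
  rw [Polynomial.eval_mul, e1, e1] at ht
  obtain ⟨M, hM, hMf⟩ := hct t
  refine ⟨M, hM, ?_, ?_⟩
  · have := hfU1 _ hMf.1 (left_ne_zero_of_mul ht)
    rwa [hMf.eq_spanPoint] at this
  · have := hfU2 _ hMf.1 (right_ne_zero_of_mul ht)
    rwa [hMf.eq_spanPoint] at this

end General

/-! ### The concrete chart -/

/-- The frame of the chart with the given coordinates. -/
def fr (a b c d e f g1 g2 : K) : Fin 2 → (Fin 7 → K) :=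
  ![![1, 0, a, b, c, d, 0], ![0, 1, e, g1 - a, f, g2 - c, 0]]

theorem fr_li (a b c d e f g1 g2 : K) : LinearIndependent K (fr a b c d e f g1 g2) := by
  rw [Fintype.linearIndependent_iff]
  intro x hx
  rw [Fin.sum_univ_two] at hx
  have h0 := congrFun hx 0
  have h1 := congrFun hx 1
  simp [fr] at h0 h1
  intro i
  fin_cases i
  · exact h0
  · exact h1

/-- The point of the chart with the given coordinates. -/
noncomputable def pt (a b c d e f g1 g2 : K) : Gr K (Fin 7 → K) 2 :=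
  spanPoint ⟨fr a b c d e f g1 g2, fr_li a b c d e f g1 g2⟩

theorem isFrame_fr (a b c d e f g1 g2 : K) : IsFrame (fr a b c d e f g1 g2)
    (pt a b c d e f g1 g2) := isFrame_spanPoint _ _

variable (K) in
/-- The affine part of the hypersurface. -/
def S0 : Set (Gr K (Fin 7 → K) 2) :=
  {M | ∃ a b c d e f u : K, M = pt a b c d e f (u ^ 3 - u) (u ^ 2 - 1)}

variable (K) in
/-- The affine part of the singular locus. -/
def W0 : Set (Gr K (Fin 7 → K) 2) :=
  {M | ∃ a b c d e f : K, M = pt a b c d e f 0 0}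

/-- Coordinate functionals on `2 × 7` matrices. -/
def co (i : Fin 2) (j : Fin 7) : Module.Dual K (Fin 2 → (Fin 7 → K)) :=
  (LinearMap.proj j) ∘ₗ (LinearMap.proj i)

@[simp] theorem co_apply (i : Fin 2) (j : Fin 7) (u : Fin 2 → (Fin 7 → K)) :
    co i j u = u i j := rfl

/-- Plücker coordinates. -/
noncomputable def pl (i j : Fin 7) : MvPolynomial (Module.Dual K (Fin 2 → (Fin 7 → K))) K :=
  X (co 0 i) * X (co 1 j) - X (co 0 j) * X (co 1 i)

theorem evalAt_pl (i j : Fin 7) (u : Fin 2 → (Fin 7 → K)) :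
    evalAt K u (pl i j) = u 0 i * u 1 j - u 0 j * u 1 i := by
  simp [pl]

theorem dirD_pl (i j : Fin 7) (v w : Fin 2 → (Fin 7 → K)) :
    evalAt K v (dirD K w (pl i j))
      = v 0 i * w 1 j + v 1 j * w 0 i - (v 0 j * w 1 i + v 1 i * w 0 j) := by
  simp [pl, Derivation.leibniz]

/-- First linear form. -/
noncomputable def G1 : MvPolynomial (Module.Dual K (Fin 2 → (Fin 7 → K))) K := pl 0 3 - pl 1 2
/-- Second linear form. -/
noncomputable def G2 : MvPolynomial (Module.Dual K (Fin 2 → (Fin 7 → K))) K := pl 0 5 - pl 1 4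
/-- The equation of the hypersurface. -/
noncomputable def F : MvPolynomial (Module.Dual K (Fin 2 → (Fin 7 → K))) K :=
  G1 * G1 * pl 0 1 - G2 * G2 * (G2 + pl 0 1)

theorem exists_coeffs {a b c d e f g1 g2 : K} {u : Fin 2 → (Fin 7 → K)}
    (hu : IsFrame u (pt a b c d e f g1 g2)) :
    ∃ A : Matrix (Fin 2) (Fin 2) K, IsUnit A.det ∧ ∀ i j,
      u i j = A i 0 * fr a b c d e f g1 g2 0 j + A i 1 * fr a b c d e f g1 g2 1 j := by
  obtain ⟨A, hA, h⟩ := exists_act_eq_of_isFrame (isFrame_fr a b c d e f g1 g2) hu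
  refine ⟨A, hA, ?_⟩
  intro i j
  rw [← h, act_apply, Fin.sum_univ_two]
  simp

theorem evalAt_pl_frame {a b c d e f g1 g2 : K} {u : Fin 2 → (Fin 7 → K)}
    (A : Matrix (Fin 2) (Fin 2) K) (hA : ∀ i j,
      u i j = A i 0 * fr a b c d e f g1 g2 0 j + A i 1 * fr a b c d e f g1 g2 1 j)
    (i j : Fin 7) :
    evalAt K u (pl i j) = (A 0 0 * A 1 1 - A 0 1 * A 1 0)
      * evalAt K (fr a b c d e f g1 g2) (pl i j) := by
  rw [evalAt_pl, evalAt_pl, hA 0 i, hA 0 j, hA 1 i, hA 1 j]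
  ring

theorem pl01_fr (a b c d e f g1 g2 : K) :
    evalAt K (fr a b c d e f g1 g2) (pl 0 1) = 1 := by
  rw [evalAt_pl]; simp [fr]

theorem G1_fr (a b c d e f g1 g2 : K) :
    evalAt K (fr a b c d e f g1 g2) G1 = g1 := by
  rw [G1, map_sub, evalAt_pl, evalAt_pl]; simp [fr]

theorem G2_fr (a b c d e f g1 g2 : K) :
    evalAt K (fr a b c d e f g1 g2) G2 = g2 := by
  rw [G2, map_sub, evalAt_pl, evalAt_pl]; simp [fr]

theorem vanishesOn_F : VanOn (F : MvPolynomial (Module.Dual K (Fin 2 → (Fin 7 → K))) K)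
    (S0 K) := by
  rintro M ⟨a, b, c, d, e, f, x, rfl⟩ u hu
  obtain ⟨A, _, hA⟩ := exists_coeffs hu
  have h1 := evalAt_pl_frame A hA
  have g1 : evalAt K u G1 = (A 0 0 * A 1 1 - A 0 1 * A 1 0) * (x ^ 3 - x) := by
    rw [← G1_fr a b c d e f (x ^ 3 - x) (x ^ 2 - 1), G1, map_sub, map_sub, h1, h1, mul_sub]
  have g2 : evalAt K u G2 = (A 0 0 * A 1 1 - A 0 1 * A 1 0) * (x ^ 2 - 1) := by
    rw [← G2_fr a b c d e f (x ^ 3 - x) (x ^ 2 - 1), G2, map_sub, map_sub, h1, h1, mul_sub]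
  have g3 : evalAt K u (pl 0 1) = (A 0 0 * A 1 1 - A 0 1 * A 1 0) := by
    rw [h1, pl01_fr, mul_one]
  rw [F, map_sub, map_mul, map_mul, map_mul, map_mul, map_add, g1, g2, g3]
  ring

theorem vanishesOn_Z (i : Fin 2) (S : Set (Gr K (Fin 7 → K) 2))
    (hS : ∀ M ∈ S, ∃ a b c d e f g1 g2 : K, M = pt a b c d e f g1 g2) :
    VanOn (X (co i 6) : MvPolynomial (Module.Dual K (Fin 2 → (Fin 7 → K))) K) S := by
  intro M hM u hu
  obtain ⟨a, b, c, d, e, f, g1, g2, rfl⟩ := hS M hM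
  obtain ⟨A, _, hA⟩ := exists_coeffs hu
  rw [evalAt_X, co_apply, hA i 6]
  simp [fr]

theorem S0_pt : ∀ M ∈ S0 K, ∃ a b c d e f g1 g2 : K, M = pt a b c d e f g1 g2 := by
  rintro M ⟨a, b, c, d, e, f, x, rfl⟩
  exact ⟨a, b, c, d, e, f, _, _, rfl⟩

theorem W0_pt : ∀ M ∈ W0 K, ∃ a b c d e f g1 g2 : K, M = pt a b c d e f g1 g2 := by
  rintro M ⟨a, b, c, d, e, f, rfl⟩
  exact ⟨a, b, c, d, e, f, _, _, rfl⟩

theorem vanishesOn_G1 : VanOn (G1 : MvPolynomial (Module.Dual K (Fin 2 → (Fin 7 → K))) K)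
    (W0 K) := by
  rintro M ⟨a, b, c, d, e, f, rfl⟩ u hu
  obtain ⟨A, _, hA⟩ := exists_coeffs hu
  have h1 := evalAt_pl_frame A hA
  have h2 := G1_fr a b c d e f (0 : K) 0
  rw [G1, map_sub] at h2
  rw [G1, map_sub, h1, h1, ← mul_sub, h2, mul_zero]

theorem vanishesOn_G2 : VanOn (G2 : MvPolynomial (Module.Dual K (Fin 2 → (Fin 7 → K))) K)
    (W0 K) := by
  rintro M ⟨a, b, c, d, e, f, rfl⟩ u hu
  obtain ⟨A, _, hA⟩ := exists_coeffs hu
  have h1 := evalAt_pl_frame A hA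
  have h2 := G2_fr a b c d e f (0 : K) 0
  rw [G2, map_sub] at h2
  rw [G2, map_sub, h1, h1, ← mul_sub, h2, mul_zero]

theorem W0_subset_S0 : W0 K ⊆ S0 K := by
  rintro M ⟨a, b, c, d, e, f, rfl⟩
  refine ⟨a, b, c, d, e, f, 1, ?_⟩
  norm_num

/-- The open chart. -/
def chart : Set (Gr K (Fin 7 → K) 2) :=
  {M : Gr K (Fin 7 → K) 2 | ∀ u, IsFrame u M → evalAt K u (pl 0 1) = 0}ᶜ

theorem isOpen_chart : IsOpen (chart : Set (Gr K (Fin 7 → K) 2)) :=
  (isClosed_zero _).isOpen_compl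

theorem pt_mem_chart (a b c d e f g1 g2 : K) : pt a b c d e f g1 g2 ∈ chart := by
  intro h
  have := h _ (isFrame_fr a b c d e f g1 g2)
  rw [pl01_fr] at this
  exact one_ne_zero this

/-- Normal form of points of the chart lying in the hyperplane. -/
theorem exists_pt_of_mem_chart (M : Gr K (Fin 7 → K) 2) (hM : M ∈ chart)
    (hZ : ∀ u, IsFrame u M → ∀ i, u i 6 = 0) :
    ∃ a b c d e f g1 g2 : K, M = pt a b c d e f g1 g2 := by
  have hM' : ¬ ∀ u, IsFrame u M → evalAt K u (pl 0 1) = 0 := hM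
  push Not at hM'
  obtain ⟨u, hu, hup⟩ := hM'
  rw [evalAt_pl] at hup
  let B : Matrix (Fin 2) (Fin 2) K := !![u 0 0, u 0 1; u 1 0, u 1 1]
  have hB : IsUnit B.det := by
    rw [Matrix.det_fin_two_of]
    exact isUnit_iff_ne_zero.mpr hup
  have hBinv : IsUnit (B⁻¹).det := by
    rw [Matrix.det_nonsing_inv]
    exact hB.ringInverse
  let v := MP_4a09cd_ag.act B⁻¹ u
  have hv : IsFrame v M := hu.act hBinv
  have huv : MP_4a09cd_ag.act B v = u := by
    rw [← act_mul, Matrix.mul_nonsing_inv _ hB, act_one]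
  have hv01 : ∀ i j : Fin 2, v i (Fin.castLE (by norm_num) j)
      = (1 : Matrix (Fin 2) (Fin 2) K) i j := by
    intro i j
    rw [← Matrix.nonsing_inv_mul B hB, Matrix.mul_apply]
    simp only [v, act_apply, Finset.sum_apply, Pi.smul_apply, smul_eq_mul]
    apply Finset.sum_congr rfl
    intro l _
    congr 1
    fin_cases l <;> fin_cases j <;> rfl
  have h00 : v 0 0 = 1 := by simpa using hv01 0 0
  have h01 : v 0 1 = 0 := by simpa using hv01 0 1
  have h10 : v 1 0 = 0 := by simpa using hv01 1 0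
  have h11 : v 1 1 = 1 := by simpa using hv01 1 1
  have h06 := hZ v hv 0
  have h16 := hZ v hv 1
  refine ⟨v 0 2, v 0 3, v 0 4, v 0 5, v 1 2, v 1 4, v 1 3 + v 0 2, v 1 5 + v 0 4, ?_⟩
  rw [← hv.eq_spanPoint, pt]
  have : v = fr (v 0 2) (v 0 3) (v 0 4) (v 0 5) (v 1 2) (v 1 4) (v 1 3 + v 0 2)
      (v 1 5 + v 0 4) := by
    funext i j
    fin_cases i <;> fin_cases j <;> simp [fr, h00, h01, h10, h11, h06, h16]
  apply Gr.ext'
  simp only [spanPoint]
  rw [← this]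

end Pool.Agent.Lib.MP_4a09cd_ag
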