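import Pool.Agent.Lib.MP_4a09cd_ag.Conormal

set_option autoImplicit false

open MvPolynomial

namespace Pool.Agent.Lib.MP_4a09cd_ag

universe u v

variable {K : Type u} [Field K]

theorem exists_li_path {E : Type v} [AddCommGroup E] [Module K E] {c : ℕ}
    (v w : Fin c → E) (hv : LinearIndependent K v) :
    ∃ Δ : Polynomial K, Δ.eval 0 ≠ 0 ∧
      ∀ t : K, Δ.eval t ≠ 0 → LinearIndependent K (v + t • w) := by
  have hinj : LinearMap.ker (Fintype.linearCombination K v) = ⊥ := by
    rw [LinearMap.ker_eq_bot]
    exact hv.fintypeLinearCombination_injective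
  obtain ⟨g, hg⟩ := LinearMap.exists_leftInverse_of_injective _ hinj
  have hg' : ∀ i, g (v i) = Pi.single i 1 := by
    intro i
    have h1 := LinearMap.congr_fun hg (Pi.single i 1)
    rw [LinearMap.comp_apply, Fintype.linearCombination_apply_single, one_smul,
      LinearMap.id_apply] at h1
    exact h1
  let Δ : Polynomial K := Matrix.det (Matrix.of fun i j : Fin c =>
    Polynomial.C (g (v i) j) + Polynomial.X * Polynomial.C (g (w i) j))
  have hΔ : ∀ t, Δ.eval t = Matrix.det (Matrix.of fun i j : Fin c => g ((v + t • w) i) j) := by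
    intro t
    have h1 : Δ.eval t = (Polynomial.evalRingHom t) Δ := rfl
    rw [h1, RingHom.map_det]
    congr 1
    ext i j
    simp
    exact mul_comm _ _
  refine ⟨Δ, ?_, ?_⟩
  · rw [hΔ]
    have : (Matrix.of fun i j : Fin c => g ((v + (0 : K) • w) i) j) = 1 := by
      ext i j
      simp only [Matrix.of_apply, zero_smul, add_zero, hg', Pi.single_apply, Matrix.one_apply]
      simp [eq_comm]
    rw [this, Matrix.det_one]
    exact one_ne_zero
  · intro t ht
    rw [hΔ] at ht
    rw [Fintype.linearIndependent_iff]
    intro a ha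
    have h6 : Matrix.vecMul a (Matrix.of fun i j : Fin c => g ((v + t • w) i) j) = 0 := by
      ext j
      have h7 := congrFun (congrArg g ha) j
      rw [map_sum, Finset.sum_apply, map_zero] at h7
      simp only [map_smul, Pi.smul_apply, smul_eq_mul, Pi.zero_apply] at h7
      simp only [Matrix.vecMul, dotProduct, Matrix.of_apply, Pi.zero_apply]
      exact h7
    have h8 := Matrix.eq_zero_of_vecMul_eq_zero ht h6
    intro i
    rw [h8]; rfl

theorem exists_frame_snoc {E : Type v} [AddCommGroup E] [Module K E] (N : Gr K E 3)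
    (e : Fin 2 → E) (he : LinearIndependent K e) (heN : ∀ i, e i ∈ N.space) :
    ∃ ν : E, IsFrame (Fin.snoc e ν : Fin 3 → E) N := by
  have hfN : FiniteDimensional K N.space :=
    Module.finite_of_finrank_pos (by rw [N.finrank_space]; norm_num)
  obtain ⟨ν, hνN, hν⟩ : ∃ ν ∈ N.space, ν ∉ Submodule.span K (Set.range e) := by
    by_contra hne
    push Not at hne
    have h1 : N.space ≤ Submodule.span K (Set.range e) := hne
    have hfe : FiniteDimensional K (Submodule.span K (Set.range e)) :=
      FiniteDimensional.span_of_finite K (Set.finite_range e)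
    have h2 := Submodule.finrank_mono h1
    rw [N.finrank_space, finrank_span_eq_card he] at h2
    simp at h2
  refine ⟨ν, ?_⟩
  have hv_li : LinearIndependent K (Fin.snoc e ν : Fin 3 → E) :=
    linearIndependent_finSnoc.mpr ⟨he, hν⟩
  refine ⟨hv_li, ?_⟩
  apply Submodule.eq_of_le_of_finrank_eq
  · rw [Submodule.span_le]
    rintro _ ⟨i, rfl⟩
    refine Fin.lastCases ?_ (fun j => ?_) i
    · rw [Fin.snoc_last]; exact hνN
    · rw [Fin.snoc_castSucc]; exact heN _
  · rw [N.finrank_space, finrank_span_eq_card hv_li]; simp

theorem finrank_range_smulRight {P Q : Type v} [AddCommGroup P] [Module K P]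
    [AddCommGroup Q] [Module K Q] (g : Q →ₗ[K] K) (x : P) (h : g.smulRight x ≠ 0) :
    Module.finrank K (LinearMap.range (g.smulRight x)) = 1 := by
  have hg : g ≠ 0 := by rintro rfl; apply h; ext; simp
  have hx : x ≠ 0 := by rintro rfl; apply h; ext; simp
  obtain ⟨y, hy⟩ : ∃ y, g y ≠ 0 := by
    by_contra hne
    push Not at hne
    exact hg (LinearMap.ext hne)
  have : LinearMap.range (g.smulRight x) = Submodule.span K {x} := by
    apply le_antisymm
    · rintro _ ⟨z, rfl⟩
      exact Submodule.mem_span_singleton.mpr ⟨g z, rfl⟩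
    · rw [Submodule.span_le, Set.singleton_subset_iff]
      refine ⟨(g y)⁻¹ • y, ?_⟩
      simp [hy]
  rw [this, finrank_span_singleton hx]

variable {V : Type v} [AddCommGroup V] [Module K V]

/-- In `Gr(2, V)`: every three-dimensional subspace of `Hom(V/L, L)` containing `h ⊗ l` for a
fixed nonzero functional `h` and all `l ∈ L` is a limit of subspaces spanned by rank one
homomorphisms. -/
theorem mem_closure_rkOneSp [Infinite K] (L : Gr K V 2)
    (N : Gr K ((V ⧸ L.space) →ₗ[K] L.space) 3) (h : (V ⧸ L.space) →ₗ[K] K) (hh : h ≠ 0)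
    (hN : ∀ l : L.space, h.smulRight l ∈ N.space) : N ∈ closure (rkOneSp L 3) := by
  have hfL : FiniteDimensional K L.space :=
    Module.finite_of_finrank_pos (by rw [L.finrank_space]; norm_num)
  let b := Module.finBasisOfFinrankEq K L.space L.finrank_space
  obtain ⟨y, hy⟩ : ∃ y, h y ≠ 0 := by
    by_contra hne
    push Not at hne
    exact hh (LinearMap.ext hne)
  set e : Fin 2 → ((V ⧸ L.space) →ₗ[K] L.space) := fun i => h.smulRight (b i) with he
  have he_li : LinearIndependent K e := by
    rw [Fintype.linearIndependent_iff]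
    intro a ha
    have h1 := LinearMap.congr_fun ha y
    have h2 : ∑ i, (a i * h y) • b i = 0 := by
      rw [← h1.trans (LinearMap.zero_apply y)]
      simp only [LinearMap.coe_sum, Finset.sum_apply, LinearMap.smul_apply, he,
        LinearMap.smulRight_apply, smul_smul]
    have h3 := Fintype.linearIndependent_iff.mp b.linearIndependent _ h2
    intro i
    exact (mul_eq_zero.mp (h3 i)).resolve_right hy
  obtain ⟨ν, hv⟩ := exists_frame_snoc N e he_li (fun i => hN _)
  set v : Fin 3 → ((V ⧸ L.space) →ₗ[K] L.space) := Fin.snoc e ν with hvdef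
  have hv_li : LinearIndependent K v := hv.1
  let a : Fin 2 → ((V ⧸ L.space) →ₗ[K] K) := fun i => (b.coord i) ∘ₗ ν
  have hνa : ν = (a 0).smulRight (b 0) + (a 1).smulRight (b 1) := by
    apply LinearMap.ext
    intro z
    have := (b.sum_repr (ν z)).symm
    rw [Fin.sum_univ_two] at this
    simpa [a] using this
  let w : Fin 3 → ((V ⧸ L.space) →ₗ[K] L.space) :=
    Fin.snoc (fun i : Fin 2 => (a i).smulRight (b i)) 0
  obtain ⟨Δ, hΔ0, hΔ⟩ := exists_li_path v w hv_li
  apply mem_closure_of_exists hv
  intro f hf
  have key := evalAt_eq_zero_of_path f ![v, w, 0, 0] (Polynomial.X * Δ)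
    (by
      intro h0
      have h1 : Δ ≠ 0 := by rintro rfl; simp at hΔ0
      exact (mul_ne_zero Polynomial.X_ne_zero h1) h0)
    (by
      intro t ht
      rw [Polynomial.eval_mul, Polynomial.eval_X] at ht
      have ht0 : t ≠ 0 := left_ne_zero_of_mul ht
      have hli := hΔ t (right_ne_zero_of_mul ht)
      have h2 : (![v, w, 0, 0] : Fin 4 → (Fin 3 → ((V ⧸ L.space) →ₗ[K] L.space))) 0
        + t • (![v, w, 0, 0] : Fin 4 → (Fin 3 → ((V ⧸ L.space) →ₗ[K] L.space))) 1
        + t ^ 2 • (![v, w, 0, 0] : Fin 4 → (Fin 3 → ((V ⧸ L.space) →ₗ[K] L.space))) 2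
        + t ^ 3 • (![v, w, 0, 0] : Fin 4 → (Fin 3 → ((V ⧸ L.space) →ₗ[K] L.space))) 3
          = v + t • w := by simp
      rw [h2]
      refine hf (spanPoint ⟨v + t • w, hli⟩) ?_ _ (isFrame_spanPoint _ hli)
      -- the point is spanned by rank one homomorphisms
      have hu0 : (v + t • w) 0 = (h + t • a 0).smulRight (b 0) := by
        have h3 : v 0 = h.smulRight (b 0) := rfl
        have h4 : w 0 = (a 0).smulRight (b 0) := rfl
        rw [Pi.add_apply, Pi.smul_apply, h3, h4]
        ext z; simp [add_smul, mul_smul]
      have hu1 : (v + t • w) 1 = (h + t • a 1).smulRight (b 1) := by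
        have h3 : v 1 = h.smulRight (b 1) := rfl
        have h4 : w 1 = (a 1).smulRight (b 1) := rfl
        rw [Pi.add_apply, Pi.smul_apply, h3, h4]
        ext z; simp [add_smul, mul_smul]
      have hu2 : (v + t • w) 2 = ν := by
        have h3 : v 2 = ν := rfl
        have h4 : w 2 = 0 := rfl
        rw [Pi.add_apply, Pi.smul_apply, h3, h4, smul_zero, add_zero]
      have hsum : h.smulRight (b 0 + b 1)
          = (v + t • w) 0 + (v + t • w) 1 - t • (v + t • w) 2 := by
        rw [hu0, hu1, hu2, hνa]
        apply LinearMap.ext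
        intro z
        simp only [LinearMap.smulRight_apply, LinearMap.sub_apply, LinearMap.add_apply,
          LinearMap.smul_apply, smul_add, add_smul, smul_smul, smul_eq_mul]
        abel
      refine ⟨{(v + t • w) 0, (v + t • w) 1, h.smulRight (b 0 + b 1)}, ?_, ?_⟩
      · intro ψ hψ
        rcases hψ with rfl | rfl | rfl
        · have hne := hli.ne_zero 0
          rw [hu0] at hne ⊢
          exact finrank_range_smulRight _ _ hne
        · have hne := hli.ne_zero 1
          rw [hu1] at hne ⊢
          exact finrank_range_smulRight _ _ hne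
        · apply finrank_range_smulRight
          intro h0
          have h5 := LinearMap.congr_fun h0 y
          rw [LinearMap.smulRight_apply, LinearMap.zero_apply] at h5
          have h6 := (smul_eq_zero.mp h5).resolve_left hy
          have h7 : ∑ i : Fin 2, (1 : K) • b i = 0 := by
            rw [Fin.sum_univ_two, one_smul, one_smul, h6]
          have h8 := Fintype.linearIndependent_iff.mp b.linearIndependent _ h7 0
          exact one_ne_zero h8
      · apply le_antisymm
        · rw [Submodule.span_le]
          intro ψ hψ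
          have hm : ∀ i, (v + t • w) i ∈ (spanPoint ⟨v + t • w, hli⟩ : Gr K _ 3).space :=
            fun i => Submodule.subset_span ⟨i, rfl⟩
          rcases hψ with rfl | rfl | rfl
          · exact hm 0
          · exact hm 1
          · rw [SetLike.mem_coe, hsum]
            exact Submodule.sub_mem _ (Submodule.add_mem _ (hm 0) (hm 1))
              (Submodule.smul_mem _ _ (hm 2))
        · rw [spanPoint, Submodule.span_le]
          rintro _ ⟨i, rfl⟩
          have m0 : (v + t • w) 0 ∈ Submodule.span K
            ({(v + t • w) 0, (v + t • w) 1, h.smulRight (b 0 + b 1)} : Set _) :=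
            Submodule.subset_span (by simp)
          have m1 : (v + t • w) 1 ∈ Submodule.span K
            ({(v + t • w) 0, (v + t • w) 1, h.smulRight (b 0 + b 1)} : Set _) :=
            Submodule.subset_span (by simp)
          have m2 : h.smulRight (b 0 + b 1) ∈ Submodule.span K
            ({(v + t • w) 0, (v + t • w) 1, h.smulRight (b 0 + b 1)} : Set _) :=
            Submodule.subset_span (by simp)
          have m3 : (v + t • w) 2 ∈ Submodule.span K
            ({(v + t • w) 0, (v + t • w) 1, h.smulRight (b 0 + b 1)} : Set _) := by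
            have h9 : (v + t • w) 2 = t⁻¹ • ((v + t • w) 0 + (v + t • w) 1
                - h.smulRight (b 0 + b 1)) := by
              rw [hsum, sub_sub_cancel, smul_smul, inv_mul_cancel₀ ht0, one_smul]
            rw [h9]
            exact Submodule.smul_mem _ _ (Submodule.sub_mem _ (Submodule.add_mem _ m0 m1) m2)
          fin_cases i
          · exact m0
          · exact m1
          · exact m3)
  exact key

end Pool.Agent.Lib.MP_4a09cd_ag
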