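import Pool.Agent.Lib.MP_4a09cd_ag.Semicont

set_option autoImplicit false

open MvPolynomial

namespace Pool.Agent.Lib.MP_4a09cd_ag

universe u v

variable {K : Type u} [Field K]

section Pairing

variable {P Q : Type v} [AddCommGroup P] [Module K P] [FiniteDimensional K P]
  [AddCommGroup Q] [Module K Q] [FiniteDimensional K Q]

/-- The trace pairing. -/
noncomputable def pairing : (Q →ₗ[K] P) →ₗ[K] Module.Dual K (P →ₗ[K] Q) :=
  LinearMap.mk₂ K (fun ψ φ => LinearMap.trace K P (ψ ∘ₗ φ))
    (by intro a b c; rw [LinearMap.add_comp, map_add])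
    (by intro a b c; rw [LinearMap.smul_comp, map_smul])
    (by intro a b c; rw [LinearMap.comp_add, map_add])
    (by intro a b c; rw [LinearMap.comp_smul, map_smul])

theorem pairing_apply (ψ : Q →ₗ[K] P) (φ : P →ₗ[K] Q) :
    pairing ψ φ = LinearMap.trace K P (ψ ∘ₗ φ) := rfl

theorem trace_comp_smulRight (ψ : Q →ₗ[K] P) (ξ : P →ₗ[K] K) (y : Q) :
    LinearMap.trace K P (ψ ∘ₗ (ξ.smulRight y)) = ξ (ψ y) := by
  have : ψ ∘ₗ (ξ.smulRight y) = ξ.smulRight (ψ y) := by
    ext x; simp
  rw [this, LinearMap.trace_smulRight]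

theorem trace_smulRight_comp (φ : P →ₗ[K] Q) (h : Q →ₗ[K] K) (l : P) :
    LinearMap.trace K P ((h.smulRight l) ∘ₗ φ) = h (φ l) := by
  have : (h.smulRight l) ∘ₗ φ = (h ∘ₗ φ).smulRight l := by
    ext x; simp
  rw [this, LinearMap.trace_smulRight]; rfl

theorem pairing_injective : Function.Injective (pairing : (Q →ₗ[K] P) →ₗ[K] _) := by
  rw [injective_iff_map_eq_zero]
  intro ψ hψ
  ext y
  rw [LinearMap.zero_apply, ← Module.forall_dual_apply_eq_zero_iff K]
  intro ξ
  have h := LinearMap.congr_fun hψ (ξ.smulRight y)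
  rw [pairing_apply, trace_comp_smulRight] at h
  exact h

theorem pairing_bijective : Function.Bijective (pairing : (Q →ₗ[K] P) →ₗ[K] _) := by
  refine ⟨pairing_injective, ?_⟩
  rw [← LinearMap.injective_iff_surjective_of_finrank_eq_finrank]
  · exact pairing_injective
  · rw [Subspace.dual_finrank_eq, Module.finrank_linearMap, Module.finrank_linearMap, mul_comm]

/-- The annihilator with respect to the trace pairing. -/
noncomputable def traceAnn (T : Submodule K (P →ₗ[K] Q)) : Submodule K (Q →ₗ[K] P) :=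
  T.dualAnnihilator.comap pairing

theorem mem_traceAnn (T : Submodule K (P →ₗ[K] Q)) (ψ : Q →ₗ[K] P) :
    ψ ∈ traceAnn T ↔ ∀ φ ∈ T, LinearMap.trace K P (ψ ∘ₗ φ) = 0 := by
  rw [traceAnn, Submodule.mem_comap, Submodule.mem_dualAnnihilator]
  rfl

theorem finrank_traceAnn (T : Submodule K (P →ₗ[K] Q)) :
    Module.finrank K (traceAnn T) + Module.finrank K T
      = Module.finrank K P * Module.finrank K Q := by
  have h1 := finrank_comap_of_surjective (pairing : (Q →ₗ[K] P) →ₗ[K] _)
    pairing_bijective.2 T.dualAnnihilator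
  have h2 := Subspace.finrank_add_finrank_dualAnnihilator_eq T
  rw [Subspace.dual_finrank_eq, Module.finrank_linearMap, Module.finrank_linearMap] at h1
  rw [Module.finrank_linearMap] at h2
  have h3 : traceAnn T = T.dualAnnihilator.comap pairing := rfl
  rw [h3]
  have h4 := mul_comm (Module.finrank K P) (Module.finrank K Q)
  omega

theorem mem_of_traceAnn (T : Submodule K (P →ₗ[K] Q)) (φ : P →ₗ[K] Q)
    (h : ∀ ψ ∈ traceAnn T, LinearMap.trace K P (ψ ∘ₗ φ) = 0) : φ ∈ T := by
  have h1 : T.dualAnnihilator.dualCoannihilator = T :=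
    Subspace.dualAnnihilator_dualCoannihilator_eq
  rw [← h1, Submodule.mem_dualCoannihilator]
  intro θ hθ
  obtain ⟨ψ, rfl⟩ := pairing_bijective.2 θ
  exact h ψ hθ

end Pairing

end Pool.Agent.Lib.MP_4a09cd_ag
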