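import Mathlib

/-!
# Coisotropic subvarieties of Grassmannians

The definitions make sense over an arbitrary field `K`; they are the usual notions when `K` is
algebraically closed.  A point of the Grassmannian is described by its frames (ordered bases), and
a subvariety `S` of the Grassmannian by the cone of all frames of its points, which is a locally
closed subset of the vector space of all tuples of vectors.  The tangent space of `S` at `L` is the
image of the tangent space of this cone at any frame of `L`.
-/

set_option autoImplicit false

open MvPolynomial

namespace Pool.Agent.Lib.MP_4a09cd_ag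

universe u v

section General

variable (K : Type u) [Field K]

/-- Polynomial functions on a vector space `W` are given by polynomials in the linear functionals
of `W`. -/
abbrev Poly (W : Type v) [AddCommGroup W] [Module K W] := MvPolynomial (Module.Dual K W) K

variable {W : Type v} [AddCommGroup W] [Module K W]

/-- The value of the polynomial function `f` at the vector `w`. -/
noncomputable def value (f : Poly K W) (w : W) : K :=
  MvPolynomial.eval (fun χ : Module.Dual K W => χ w) f

/-- The directional derivative `∂_w f` of the polynomial function `f` in the direction `w`: the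
derivation sending every linear functional `χ` to the constant `χ w`. -/
noncomputable def dirDeriv (w : W) (f : Poly K W) : Poly K W :=
  MvPolynomial.mkDerivation K (fun χ : Module.Dual K W => C (χ w)) f

/-- The Zariski topology of a vector space `W`: the topology generated by the sets
`{w | f w ≠ 0}` with `f` a polynomial function. -/
@[reducible]
def zariski (W : Type v) [AddCommGroup W] [Module K W] : TopologicalSpace W :=
  TopologicalSpace.generateFrom {U | ∃ f : Poly K W, U = {w | value K f w ≠ 0}}

/-- The Grassmannian of `c`-dimensional linear subspaces of the vector space `E`. -/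
structure Gr (E : Type v) [AddCommGroup E] [Module K E] (c : ℕ) where
  /-- the underlying linear subspace -/
  space : Submodule K E
  /-- its dimension -/
  finrank_space : Module.finrank K space = c

/-- `Gr(ℓ, ℙⁿ)`: the Grassmannian of `ℓ`-dimensional projective subspaces of `ℙⁿ` over `K`, that
is, of `(ℓ + 1)`-dimensional linear subspaces of `K^(n + 1)`. -/
abbrev GrProj (ℓ n : ℕ) := Gr K (Fin (n + 1) → K) (ℓ + 1)

end General

variable {K : Type u} [Field K]

/-- The point of the Grassmannian spanned by a linearly independent `c`-tuple. -/
noncomputable def spanPoint {E : Type v} [AddCommGroup E] [Module K E] {c : ℕ}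
    (v : {v : Fin c → E // LinearIndependent K v}) : Gr K E c where
  space := Submodule.span K (Set.range v.1)
  finrank_space := by simpa using finrank_span_eq_card v.2

/-- The Zariski topology of the Grassmannian: the quotient topology of the Zariski topology on
linearly independent `c`-tuples (frames) under the map sending a frame to its span. -/
noncomputable instance {E : Type v} [AddCommGroup E] [Module K E] {c : ℕ} :
    TopologicalSpace (Gr K E c) :=
  TopologicalSpace.coinduced spanPoint
    (@instTopologicalSpaceSubtype _ (fun v : Fin c → E => LinearIndependent K v)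
      (zariski K (Fin c → E)))

variable {V : Type v} [AddCommGroup V] [Module K V] {k : ℕ}

/-- `v` is a frame (ordered basis) of the point `L` of the Grassmannian. -/
def IsFrame (v : Fin k → V) (L : Gr K V k) : Prop :=
  LinearIndependent K v ∧ Submodule.span K (Set.range v) = L.space

/-- `f` vanishes on the set `S` of points of the Grassmannian, that is, on all frames of all
elements of `S`. -/
def VanishesOn (f : Poly K (Fin k → V)) (S : Set (Gr K V k)) : Prop :=
  ∀ M ∈ S, ∀ u : Fin k → V, IsFrame u M → value K f u = 0

/-- `Hom(L, V/L)`, the tangent space of the Grassmannian at `L`. -/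
def TangentHom (L : Gr K V k) : Type v := L.space →ₗ[K] V ⧸ L.space

noncomputable instance (L : Gr K V k) : AddCommGroup (TangentHom L) :=
  (LinearMap.addCommGroup : AddCommGroup (L.space →ₗ[K] V ⧸ L.space))

noncomputable instance (L : Gr K V k) : Module K (TangentHom L) :=
  (LinearMap.module : Module K (L.space →ₗ[K] V ⧸ L.space))

/-- `Hom(V/L, L)`, the cotangent space of the Grassmannian at `L`. -/
def CotangentHom (L : Gr K V k) : Type v := (V ⧸ L.space) →ₗ[K] L.space

noncomputable instance (L : Gr K V k) : AddCommGroup (CotangentHom L) :=
  (LinearMap.addCommGroup : AddCommGroup ((V ⧸ L.space) →ₗ[K] L.space))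

noncomputable instance (L : Gr K V k) : Module K (CotangentHom L) :=
  (LinearMap.module : Module K ((V ⧸ L.space) →ₗ[K] L.space))

/-- The value of a homomorphism `L → V/L` at an element of `L`. -/
def TangentHom.app {L : Gr K V k} (φ : TangentHom L) (x : L.space) : V ⧸ L.space :=
  (show L.space →ₗ[K] V ⧸ L.space from φ) x

/-- The trace of `ψ ∘ φ`. -/
noncomputable def traceComp {P Q : Type v} [AddCommGroup P] [Module K P] [AddCommGroup Q]
    [Module K Q] (ψ : Q →ₗ[K] P) (φ : P →ₗ[K] Q) : K :=
  LinearMap.trace K P (ψ.comp φ)

/-- The trace pairing between `Hom(V/L, L)` and `Hom(L, V/L)`. -/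
noncomputable def tracePairing {L : Gr K V k} (ψ : CotangentHom L) (φ : TangentHom L) : K :=
  traceComp (P := L.space) (Q := V ⧸ L.space) ψ φ

/-- The rank of a linear map. -/
noncomputable def rank {P Q : Type v} [AddCommGroup P] [Module K P] [AddCommGroup Q]
    [Module K Q] (ψ : Q →ₗ[K] P) : ℕ :=
  Module.finrank K (LinearMap.range ψ)

/-- A homomorphism `V/L → L` of rank one. -/
def IsRankOne {L : Gr K V k} (ψ : CotangentHom L) : Prop :=
  rank (P := L.space) (Q := V ⧸ L.space) ψ = 1

/-- The tuple `w` lifts the images under `φ : L → V/L` of the tuple `v` of elements of `L`. -/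
def IsLift {L : Gr K V k} (φ : TangentHom L) (v w : Fin k → V) : Prop :=
  ∀ (i : Fin k) (hi : v i ∈ L.space), (Submodule.Quotient.mk (w i) : V ⧸ L.space) = φ.app ⟨v i, hi⟩

/-- `φ ∈ Hom(L, V/L)` is tangent to `S` at `L`: whenever `v` is a frame of `L` and the tuple `w`
lifts `φ ∘ v`, the directional derivatives `∂_w f (v)` vanish for all `f` vanishing on `S`. -/
def IsTangent (S : Set (Gr K V k)) (L : Gr K V k) (φ : TangentHom L) : Prop :=
  ∀ v w : Fin k → V, IsFrame v L → IsLift φ v w →
    ∀ f : Poly K (Fin k → V), VanishesOn f S → value K (dirDeriv K w f) v = 0

/-- The tangent space `T_L S ⊆ Hom(L, V/L)` of `S` at `L`: the span of the tangent vectors.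
(For `L ∈ S` the tangent vectors already form a linear subspace.) -/
noncomputable def tangentSpace (S : Set (Gr K V k)) (L : Gr K V k) :
    Submodule K (TangentHom L) :=
  Submodule.span K {φ | IsTangent S L φ}

/-- The dimension of the tangent space. -/
noncomputable def tangentDim (S : Set (Gr K V k)) (L : Gr K V k) : ℕ :=
  Module.finrank K (tangentSpace S L)

/-- `L` is a smooth point of the irreducible variety `S`: it lies on `S` and the dimension of
the tangent space at `L` is minimal among all points of `S`.  (The minimal value of the dimension
of the tangent spaces of an irreducible variety is the dimension of the variety.) -/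
def IsSmoothPoint (S : Set (Gr K V k)) (L : Gr K V k) : Prop :=
  L ∈ S ∧ ∀ M ∈ S, tangentDim S L ≤ tangentDim S M

/-- The singular locus of the irreducible variety `S`. -/
def singularLocus (S : Set (Gr K V k)) : Set (Gr K V k) :=
  {L | L ∈ S ∧ ¬ IsSmoothPoint S L}

/-- The conormal space `N*_L S ⊆ Hom(V/L, L)`: the annihilator of the tangent space with respect
to the trace pairing. -/
noncomputable def conormalSpace (S : Set (Gr K V k)) (L : Gr K V k) :
    Submodule K (CotangentHom L) :=
  Submodule.span K {ψ | ∀ φ ∈ tangentSpace S L, tracePairing ψ φ = 0}

/-- The dimension of the conormal space (at a smooth point: the codimension of `S`). -/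
noncomputable def conormalDim (S : Set (Gr K V k)) (L : Gr K V k) : ℕ :=
  Module.finrank K (conormalSpace S L)

/-- The conormal space as a point of a Grassmannian of subspaces of `Hom(V/L, L)`. -/
noncomputable def conormalPoint (S : Set (Gr K V k)) (L : Gr K V k) :
    Gr K (CotangentHom L) (conormalDim S L) :=
  ⟨conormalSpace S L, rfl⟩

/-- The set `R_L` of `c`-dimensional subspaces of `Hom(V/L, L)` that are spanned by homomorphisms
of rank one. -/
def rankOneSpanned (L : Gr K V k) (c : ℕ) : Set (Gr K (CotangentHom L) c) :=
  {N | ∃ A : Set (CotangentHom L), (∀ ψ ∈ A, IsRankOne ψ) ∧ Submodule.span K A = N.space}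

/-- `S` is coisotropic: at every smooth point `L` the conormal space lies in the Zariski closure
of `R_L`, in the Grassmannian of `c`-dimensional subspaces of `Hom(V/L, L)`, where `c` is the
dimension of the conormal space at `L`, that is, the codimension of `S`. -/
def IsCoisotropic (S : Set (Gr K V k)) : Prop :=
  ∀ L : Gr K V k, IsSmoothPoint S L →
    conormalPoint S L ∈ closure (rankOneSpanned L (conormalDim S L))

/-- `Z` is an irreducible component of the set `X`: a maximal irreducible subset of `X`. -/
def IsComponent {T : Type v} [TopologicalSpace T] (X Z : Set T) : Prop :=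
  Maximal (fun Y : Set T => IsIrreducible Y ∧ Y ⊆ X) Z

end Pool.Agent.Lib.MP_4a09cd_ag
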