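import Pool.Agent.Lib.MP_4a09cd_ag.Chart

set_option autoImplicit false

open MvPolynomial

namespace Pool.Agent.Lib.MP_4a09cd_ag

universe u v

variable {K : Type u} [Field K]

variable (K) in
/-- The hypersurface. -/
def SS : Set (Gr K (Fin 7 → K) 2) := closure (S0 K)

variable (K) in
/-- The component of the singular locus. -/
def WW : Set (Gr K (Fin 7 → K) 2) := closure (W0 K)

theorem S0_subset : S0 K ⊆ SS K := subset_closure
theorem W0_subset : W0 K ⊆ WW K := subset_closure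
theorem WW_subset_SS : WW K ⊆ SS K := closure_mono W0_subset_S0

theorem isClosed_SS : IsClosed (SS K) := isClosed_closure

theorem Z_SS {M : Gr K (Fin 7 → K) 2} (hM : M ∈ SS K) {u : Fin 2 → (Fin 7 → K)}
    (hu : IsFrame u M) (i : Fin 2) : u i 6 = 0 := by
  have := (vanishesOn_Z i (S0 K) S0_pt).closure M hM u hu
  simpa using this

/-- Points of the chart on the hypersurface. -/
theorem mem_S0_of_mem_chart {M : Gr K (Fin 7 → K) 2} (hM : M ∈ SS K) (hc : M ∈ chart) :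
    M ∈ S0 K := by
  obtain ⟨a, b, c, d, e, f, g1, g2, rfl⟩ := exists_pt_of_mem_chart M hc (fun u hu i => Z_SS hM hu i)
  have h1 := vanishesOn_F.closure _ hM _ (isFrame_fr a b c d e f g1 g2)
  rw [F, map_sub, map_mul, map_mul, map_mul, map_mul, map_add, G1_fr, G2_fr, pl01_fr] at h1
  by_cases h2 : g2 = 0
  · subst h2
    have h3 : g1 = 0 := by
      have : g1 * g1 = 0 := by linear_combination h1
      exact mul_self_eq_zero.mp this
    subst h3
    exact W0_subset_S0 ⟨a, b, c, d, e, f, rfl⟩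
  · refine ⟨a, b, c, d, e, f, g1 / g2, ?_⟩
    have h3 : (g1 / g2) ^ 2 - 1 = g2 := by
      field_simp
      linear_combination h1
    have h4 : (g1 / g2) ^ 3 - g1 / g2 = g1 := by
      have : (g1 / g2) ^ 3 - g1 / g2 = (g1 / g2) * ((g1 / g2) ^ 2 - 1) := by ring
      rw [this, h3]
      field_simp
    rw [h3, h4]

/-! ### Tangent directions -/

section Directions

variable [Infinite K]

/-- A direction in the ambient space of matrices. -/
theorem mem_tanAt_path {S : Set (Gr K (Fin 7 → K) 2)}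
    (c : Fin 4 → (Fin 2 → (Fin 7 → K)))
    (h : ∀ t : K, ∃ M ∈ S, IsFrame (c 0 + t • c 1 + t ^ 2 • c 2 + t ^ 3 • c 3) M) :
    c 1 ∈ tanAt S (c 0) := by
  intro f hf
  apply dirD_eq_zero_of_path f c 1 one_ne_zero
  intro t _
  obtain ⟨M, hM, hMf⟩ := h t
  exact hf M hM _ hMf

/-- Linear paths of frames. -/
theorem mem_tanAt_line {S : Set (Gr K (Fin 7 → K) 2)} (v w : Fin 2 → (Fin 7 → K))
    (h : ∀ t : K, ∃ M ∈ S, IsFrame (v + t • w) M) : w ∈ tanAt S v := by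
  have := mem_tanAt_path ![v, w, 0, 0] (S := S) (by
    intro t
    obtain ⟨M, hM, hMf⟩ := h t
    refine ⟨M, hM, ?_⟩
    simpa using hMf)
  exact this

/-- The elementary matrices. -/
def el (i : Fin 2) (j : Fin 7) : Fin 2 → (Fin 7 → K) :=
  fun i' j' => if i' = i ∧ j' = j then 1 else 0

omit [Infinite K] in
theorem fr_add (a b c d e f g1 g2 t xa xb xc xd xe xf x1 x2 : K) :
    fr a b c d e f g1 g2 + t • (xa • el 0 2 + xb • el 0 3 + xc • el 0 4 + xd • el 0 5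
      + xe • el 1 2 + xf • el 1 4 + (x1 - xa) • el 1 3 + (x2 - xc) • el 1 5)
      = fr (a + t * xa) (b + t * xb) (c + t * xc) (d + t * xd) (e + t * xe) (f + t * xf)
        (g1 + t * x1) (g2 + t * x2) := by
  funext i j
  fin_cases i <;> fin_cases j <;> simp [fr, el] <;> ring

/-- The direction in the matrix space with given chart components. -/
def dirv (xa xb xc xd xe xf x1 x2 : K) : Fin 2 → (Fin 7 → K) :=
  xa • el 0 2 + xb • el 0 3 + xc • el 0 4 + xd • el 0 5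
      + xe • el 1 2 + xf • el 1 4 + (x1 - xa) • el 1 3 + (x2 - xc) • el 1 5

omit [Infinite K] in
theorem dirv_add (xa xb xc xd xe xf x1 x2 ya yb yc yd ye yf y1 y2 : K) :
    dirv xa xb xc xd xe xf x1 x2 + dirv ya yb yc yd ye yf y1 y2
      = dirv (xa + ya) (xb + yb) (xc + yc) (xd + yd) (xe + ye) (xf + yf) (x1 + y1) (x2 + y2) := by
  simp only [dirv, add_smul, sub_smul]
  abel

omit [Infinite K] in
theorem smul_dirv (t xa xb xc xd xe xf x1 x2 : K) :
    t • dirv xa xb xc xd xe xf x1 x2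
      = dirv (t * xa) (t * xb) (t * xc) (t * xd) (t * xe) (t * xf) (t * x1) (t * x2) := by
  simp only [dirv, smul_add, smul_smul, mul_sub]

omit [Infinite K] in
/-- Decomposition of an arbitrary matrix with vanishing last column. -/
theorem decomp (a b c d e f g1 g2 : K) (w : Fin 2 → (Fin 7 → K)) (h0 : w 0 6 = 0)
    (h1 : w 1 6 = 0) :
    w = act !![w 0 0, w 0 1; w 1 0, w 1 1] (fr a b c d e f g1 g2)
      + dirv (w 0 2 - (w 0 0 * a + w 0 1 * e)) (w 0 3 - (w 0 0 * b + w 0 1 * (g1 - a)))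
        (w 0 4 - (w 0 0 * c + w 0 1 * f)) (w 0 5 - (w 0 0 * d + w 0 1 * (g2 - c)))
        (w 1 2 - (w 1 0 * a + w 1 1 * e)) (w 1 4 - (w 1 0 * c + w 1 1 * f))
        ((w 1 3 - (w 1 0 * b + w 1 1 * (g1 - a))) + (w 0 2 - (w 0 0 * a + w 0 1 * e)))
        ((w 1 5 - (w 1 0 * d + w 1 1 * (g2 - c))) + (w 0 4 - (w 0 0 * c + w 0 1 * f))) := by
  funext i j
  fin_cases i <;> fin_cases j <;>
    simp [dirv, el, act_apply, Fin.sum_univ_two, fr, h0, h1]

omit [Infinite K] in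
/-- The coordinates `γ₁, γ₂` of a matrix. -/
theorem exists_gamma (a b c d e f g1 g2 : K) :
    ∃ γ1 γ2 : Module.Dual K (Fin 2 → (Fin 7 → K)),
      (∀ w, γ1 w = ((w 1 3 - (w 1 0 * b + w 1 1 * (g1 - a)))
        + (w 0 2 - (w 0 0 * a + w 0 1 * e)))) ∧
      (∀ w, γ2 w = ((w 1 5 - (w 1 0 * d + w 1 1 * (g2 - c)))
        + (w 0 4 - (w 0 0 * c + w 0 1 * f)))) := by
  refine ⟨(co 1 3 - (b • co 1 0 + (g1 - a) • co 1 1)) + (co 0 2 - (a • co 0 0 + e • co 0 1)),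
    (co 1 5 - (d • co 1 0 + (g2 - c) • co 1 1)) + (co 0 4 - (c • co 0 0 + f • co 0 1)), ?_, ?_⟩
  · intro w; simp; ring
  · intro w; simp; ring

/-- Directions tangent to the hypersurface. -/
theorem dirv_mem_tanAt_S (a b c d e f x xa xb xc xd xe xf s : K) :
    dirv xa xb xc xd xe xf (s * (3 * x ^ 2 - 1)) (s * (2 * x))
      ∈ tanAt (SS K) (fr a b c d e f (x ^ 3 - x) (x ^ 2 - 1)) := by
  have h1 : dirv xa xb xc xd xe xf 0 0
      ∈ tanAt (SS K) (fr a b c d e f (x ^ 3 - x) (x ^ 2 - 1)) := by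
    apply mem_tanAt_line
    intro t
    refine ⟨pt (a + t * xa) (b + t * xb) (c + t * xc) (d + t * xd) (e + t * xe) (f + t * xf)
        (x ^ 3 - x) (x ^ 2 - 1), S0_subset ⟨_, _, _, _, _, _, x, rfl⟩, ?_⟩
    rw [dirv, fr_add]
    simpa using isFrame_fr (a + t * xa) (b + t * xb) (c + t * xc) (d + t * xd) (e + t * xe)
      (f + t * xf) (x ^ 3 - x) (x ^ 2 - 1)
  have h2 : dirv 0 0 0 0 0 0 (3 * x ^ 2 - 1) (2 * x)
      ∈ tanAt (SS K) (fr a b c d e f (x ^ 3 - x) (x ^ 2 - 1)) := by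
    have := mem_tanAt_path (S := SS K) ![fr a b c d e f (x ^ 3 - x) (x ^ 2 - 1),
      dirv 0 0 0 0 0 0 (3 * x ^ 2 - 1) (2 * x), dirv 0 0 0 0 0 0 (3 * x) 1,
      dirv 0 0 0 0 0 0 1 0] (by
        intro t
        refine ⟨pt a b c d e f ((x + t) ^ 3 - (x + t)) ((x + t) ^ 2 - 1),
          S0_subset ⟨_, _, _, _, _, _, x + t, rfl⟩, ?_⟩
        have h3 : (![fr a b c d e f (x ^ 3 - x) (x ^ 2 - 1),
          dirv 0 0 0 0 0 0 (3 * x ^ 2 - 1) (2 * x), dirv 0 0 0 0 0 0 (3 * x) 1,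
          dirv 0 0 0 0 0 0 1 0] : Fin 4 → (Fin 2 → (Fin 7 → K))) 0
          + t • (![fr a b c d e f (x ^ 3 - x) (x ^ 2 - 1),
          dirv 0 0 0 0 0 0 (3 * x ^ 2 - 1) (2 * x), dirv 0 0 0 0 0 0 (3 * x) 1,
          dirv 0 0 0 0 0 0 1 0] : Fin 4 → (Fin 2 → (Fin 7 → K))) 1
          + t ^ 2 • (![fr a b c d e f (x ^ 3 - x) (x ^ 2 - 1),
          dirv 0 0 0 0 0 0 (3 * x ^ 2 - 1) (2 * x), dirv 0 0 0 0 0 0 (3 * x) 1,
          dirv 0 0 0 0 0 0 1 0] : Fin 4 → (Fin 2 → (Fin 7 → K))) 2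
          + t ^ 3 • (![fr a b c d e f (x ^ 3 - x) (x ^ 2 - 1),
          dirv 0 0 0 0 0 0 (3 * x ^ 2 - 1) (2 * x), dirv 0 0 0 0 0 0 (3 * x) 1,
          dirv 0 0 0 0 0 0 1 0] : Fin 4 → (Fin 2 → (Fin 7 → K))) 3
          = fr a b c d e f ((x + t) ^ 3 - (x + t)) ((x + t) ^ 2 - 1) := by
          simp only [Matrix.cons_val_zero, Matrix.cons_val_one, Matrix.cons_val]
          rw [add_assoc, add_assoc, smul_dirv, smul_dirv, smul_dirv, dirv_add, dirv_add]
          have h4 := fr_add a b c d e f (x ^ 3 - x) (x ^ 2 - 1) 1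
            (t * 0 + (t ^ 2 * 0 + t ^ 3 * 0)) (t * 0 + (t ^ 2 * 0 + t ^ 3 * 0))
            (t * 0 + (t ^ 2 * 0 + t ^ 3 * 0)) (t * 0 + (t ^ 2 * 0 + t ^ 3 * 0))
            (t * 0 + (t ^ 2 * 0 + t ^ 3 * 0)) (t * 0 + (t ^ 2 * 0 + t ^ 3 * 0))
            (t * (3 * x ^ 2 - 1) + (t ^ 2 * (3 * x) + t ^ 3 * 1))
            (t * (2 * x) + (t ^ 2 * 1 + t ^ 3 * 0))
          rw [one_smul] at h4
          rw [dirv, h4]
          congr 1 <;> ring
        rw [h3]
        exact isFrame_fr _ _ _ _ _ _ _ _)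
    exact this
  have h3 := Submodule.add_mem _ h1 (Submodule.smul_mem _ s h2)
  rw [smul_dirv, dirv_add] at h3
  simpa using h3

theorem fr_node (a b c d e f : K) (x : K) (hx : x ^ 2 = 1) :
    fr a b c d e f (x ^ 3 - x) (x ^ 2 - 1) = fr a b c d e f 0 0 := by
  have h1 : x ^ 3 - x = 0 := by linear_combination x * hx
  have h2 : x ^ 2 - 1 = 0 := by linear_combination hx
  rw [h1, h2]

theorem dirv_mem_tanAt_node (h2 : (2 : K) ≠ 0) (a b c d e f xa xb xc xd xe xf x1 x2 : K) :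
    dirv xa xb xc xd xe xf x1 x2 ∈ tanAt (SS K) (fr a b c d e f 0 0) := by
  have p1 := dirv_mem_tanAt_S a b c d e f 1 xa xb xc xd xe xf ((x1 + x2) / 4)
  have p2 := dirv_mem_tanAt_S a b c d e f (-1) 0 0 0 0 0 0 ((x1 - x2) / 4)
  rw [fr_node a b c d e f 1 (by norm_num)] at p1
  rw [fr_node a b c d e f (-1) (by norm_num)] at p2
  have h3 := Submodule.add_mem _ p1 p2
  rw [dirv_add] at h3
  have h4 : (4 : K) ≠ 0 := by
    have : (4 : K) = 2 * 2 := by norm_num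
    rw [this]; exact mul_ne_zero h2 h2
  have e1 : (x1 + x2) / 4 * (3 * 1 ^ 2 - 1) + (x1 - x2) / 4 * (3 * (-1) ^ 2 - 1) = x1 := by
    field_simp; ring
  have e2 : (x1 + x2) / 4 * (2 * 1) + (x1 - x2) / 4 * (2 * -1) = x2 := by
    field_simp; ring
  rw [e1, e2] at h3
  simpa using h3

/-- Directions tangent to `W`. -/
theorem dirv_mem_tanAt_W (a b c d e f xa xb xc xd xe xf : K) :
    dirv xa xb xc xd xe xf 0 0 ∈ tanAt (WW K) (fr a b c d e f 0 0) := by
  apply mem_tanAt_line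
  intro t
  refine ⟨pt (a + t * xa) (b + t * xb) (c + t * xc) (d + t * xd) (e + t * xe) (f + t * xf)
      0 0, W0_subset ⟨_, _, _, _, _, _, rfl⟩, ?_⟩
  rw [dirv, fr_add]
  simpa using isFrame_fr (a + t * xa) (b + t * xb) (c + t * xc) (d + t * xd) (e + t * xe)
    (f + t * xf) 0 0

end Directions

end Pool.Agent.Lib.MP_4a09cd_ag
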