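import Pool.Agent.Lib.MP_4a09cd_ag.Example

set_option autoImplicit false

open MvPolynomial

namespace Pool.Agent.Lib.MP_4a09cd_ag

universe u v

variable {K : Type u} [Field K]

theorem finrank_mat : Module.finrank K (Fin 2 → (Fin 7 → K)) = 14 := by
  rw [Module.finrank_pi_fintype]; simp

theorem finite_space {E : Type v} [AddCommGroup E] [Module K E] {c : ℕ} (M : Gr K E c)
    (hc : 0 < c) : FiniteDimensional K M.space :=
  Module.finite_of_finrank_pos (by rw [M.finrank_space]; exact hc)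

theorem le_finrank_of_ker {m : ℕ} (Φ : (Fin 2 → (Fin 7 → K)) →ₗ[K] (Fin m → K))
    (T : Submodule K (Fin 2 → (Fin 7 → K))) (h : LinearMap.ker Φ ≤ T) :
    14 ≤ Module.finrank K T + m := by
  have h1 := LinearMap.finrank_range_add_finrank_ker Φ
  have h2 := Submodule.finrank_mono h
  have h3 := Submodule.finrank_le (LinearMap.range Φ)
  rw [Module.finrank_fin_fun] at h3
  rw [finrank_mat] at h1
  omega

theorem finrank_le_of_ker {m : ℕ} (Φ : (Fin 2 → (Fin 7 → K)) →ₗ[K] (Fin m → K))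
    (hΦ : Function.Surjective Φ)
    (T : Submodule K (Fin 2 → (Fin 7 → K))) (h : T ≤ LinearMap.ker Φ) :
    Module.finrank K T + m ≤ 14 := by
  have h1 := LinearMap.finrank_range_add_finrank_ker Φ
  have h2 := Submodule.finrank_mono h
  rw [LinearMap.range_eq_top.mpr hΦ, finrank_top, Module.finrank_fin_fun] at h1
  rw [finrank_mat] at h1
  omega

section Infinite

variable [Infinite K]

theorem finrank_tanSp_S0_ge (h2 : (2 : K) ≠ 0) {M : Gr K (Fin 7 → K) 2}
    (hM : M ∈ S0 K) : 7 ≤ Module.finrank K (tanSp (SS K) M) := by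
  obtain ⟨a, b, c, d, e, f, x, rfl⟩ := hM
  have hMS : pt a b c d e f (x ^ 3 - x) (x ^ 2 - 1) ∈ SS K := S0_subset ⟨_, _, _, _, _, _, x, rfl⟩
  have hfr := isFrame_fr a b c d e f (x ^ 3 - x) (x ^ 2 - 1)
  obtain ⟨γ1, γ2, hγ1, hγ2⟩ := exists_gamma a b c d e f (x ^ 3 - x) (x ^ 2 - 1)
  have key := le_finrank_of_ker (m := 3)
    (LinearMap.pi ![co 0 6, co 1 6, (2 * x) • γ1 - (3 * x ^ 2 - 1) • γ2])
    (tanAt (SS K) (fr a b c d e f (x ^ 3 - x) (x ^ 2 - 1))) (by
      intro w hw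
      rw [LinearMap.mem_ker] at hw
      have w0 : w 0 6 = 0 := by simpa using congrFun hw 0
      have w1 : w 1 6 = 0 := by simpa using congrFun hw 1
      have w2 : 2 * x * γ1 w - (3 * x ^ 2 - 1) * γ2 w = 0 := by simpa using congrFun hw 2
      rw [decomp a b c d e f (x ^ 3 - x) (x ^ 2 - 1) w w0 w1, ← hγ1, ← hγ2]
      refine Submodule.add_mem _ (act_mem_tanAt_self hMS hfr _) ?_
      obtain ⟨s, hs1, hs2⟩ : ∃ s : K, γ1 w = s * (3 * x ^ 2 - 1) ∧ γ2 w = s * (2 * x) := by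
        by_cases hx : x = 0
        · subst hx
          refine ⟨-γ1 w, by ring, ?_⟩
          linear_combination w2
        · refine ⟨γ2 w / (2 * x), ?_, ?_⟩
          · field_simp
            linear_combination w2
          · field_simp
      rw [hs1, hs2]
      exact dirv_mem_tanAt_S _ _ _ _ _ _ _ _ _ _ _ _ _ _)
  have h3 := finrank_tanAt hMS hfr
  omega

theorem finrank_tanSp_W0_ge (h2 : (2 : K) ≠ 0) {M : Gr K (Fin 7 → K) 2}
    (hM : M ∈ W0 K) : 8 ≤ Module.finrank K (tanSp (SS K) M) := by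
  obtain ⟨a, b, c, d, e, f, rfl⟩ := hM
  have hMS : pt a b c d e f 0 0 ∈ SS K := S0_subset (W0_subset_S0 ⟨_, _, _, _, _, _, rfl⟩)
  have hfr := isFrame_fr a b c d e f (0 : K) 0
  have key := le_finrank_of_ker (m := 2)
    (LinearMap.pi ![co 0 6, co 1 6])
    (tanAt (SS K) (fr a b c d e f 0 0)) (by
      intro w hw
      rw [LinearMap.mem_ker] at hw
      have w0 : w 0 6 = 0 := by simpa using congrFun hw 0
      have w1 : w 1 6 = 0 := by simpa using congrFun hw 1
      rw [decomp a b c d e f 0 0 w w0 w1]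
      refine Submodule.add_mem _ (act_mem_tanAt_self hMS hfr _) ?_
      exact dirv_mem_tanAt_node h2 _ _ _ _ _ _ _ _ _ _ _ _ _ _)
  have h3 := finrank_tanAt hMS hfr
  omega

theorem finrank_tanSp_WW_ge {M : Gr K (Fin 7 → K) 2}
    (hM : M ∈ W0 K) : 6 ≤ Module.finrank K (tanSp (WW K) M) := by
  obtain ⟨a, b, c, d, e, f, rfl⟩ := hM
  have hMS : pt a b c d e f 0 0 ∈ WW K := W0_subset ⟨_, _, _, _, _, _, rfl⟩
  have hfr := isFrame_fr a b c d e f (0 : K) 0
  obtain ⟨γ1, γ2, hγ1, hγ2⟩ := exists_gamma a b c d e f (0 : K) 0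
  have key := le_finrank_of_ker (m := 4)
    (LinearMap.pi ![co 0 6, co 1 6, γ1, γ2])
    (tanAt (WW K) (fr a b c d e f 0 0)) (by
      intro w hw
      rw [LinearMap.mem_ker] at hw
      have w0 : w 0 6 = 0 := by simpa using congrFun hw 0
      have w1 : w 1 6 = 0 := by simpa using congrFun hw 1
      have w2 : γ1 w = 0 := by simpa using congrFun hw 2
      have w3 : γ2 w = 0 := by simpa using congrFun hw 3
      rw [decomp a b c d e f 0 0 w w0 w1, ← hγ1, ← hγ2, w2, w3]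
      refine Submodule.add_mem _ (act_mem_tanAt_self hMS hfr _) ?_
      exact dirv_mem_tanAt_W _ _ _ _ _ _ _ _ _ _ _ _)
  have h3 := finrank_tanAt hMS hfr
  omega

theorem tanAt_S_Z {M : Gr K (Fin 7 → K) 2} {v w : Fin 2 → (Fin 7 → K)}
    (hw : w ∈ tanAt (SS K) v) (i : Fin 2) : w i 6 = 0 := by
  have := hw _ ((vanishesOn_Z i (S0 K) S0_pt).closure)
  simpa using this

theorem tanAt_W_Z {v w : Fin 2 → (Fin 7 → K)}
    (hw : w ∈ tanAt (WW K) v) (i : Fin 2) : w i 6 = 0 := by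
  have := hw _ ((vanishesOn_Z i (W0 K) W0_pt).closure)
  simpa using this

omit [Infinite K] in
theorem dF (g1 g2 : K) (v w : Fin 2 → (Fin 7 → K)) (h1 : evalAt K v G1 = g1)
    (h2 : evalAt K v G2 = g2) (h3 : evalAt K v (pl 0 1) = 1) :
    evalAt K v (dirD K w F) = 2 * g1 * evalAt K v (dirD K w G1)
      - (3 * g2 ^ 2 + 2 * g2) * evalAt K v (dirD K w G2)
      + (g1 ^ 2 - g2 ^ 2) * evalAt K v (dirD K w (pl 0 1)) := by
  simp only [F, map_sub, Derivation.leibniz, smul_eq_mul, map_add, map_mul, h1, h2, h3]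
  ring

omit [Infinite K] in
theorem dG1 (v w : Fin 2 → (Fin 7 → K)) : evalAt K v (dirD K w G1)
    = (v 0 0 * w 1 3 + v 1 3 * w 0 0 - (v 0 3 * w 1 0 + v 1 0 * w 0 3))
      - (v 0 1 * w 1 2 + v 1 2 * w 0 1 - (v 0 2 * w 1 1 + v 1 1 * w 0 2)) := by
  rw [G1, map_sub, map_sub, dirD_pl, dirD_pl]

omit [Infinite K] in
theorem dG2 (v w : Fin 2 → (Fin 7 → K)) : evalAt K v (dirD K w G2)
    = (v 0 0 * w 1 5 + v 1 5 * w 0 0 - (v 0 5 * w 1 0 + v 1 0 * w 0 5))
      - (v 0 1 * w 1 4 + v 1 4 * w 0 1 - (v 0 4 * w 1 1 + v 1 1 * w 0 4)) := by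
  rw [G2, map_sub, map_sub, dirD_pl, dirD_pl]

theorem finrank_tanSp_S0_le (h2 : (2 : K) ≠ 0) (a b c d e f x : K) (hx : x ^ 2 ≠ 1) :
    Module.finrank K (tanSp (SS K) (pt a b c d e f (x ^ 3 - x) (x ^ 2 - 1))) ≤ 7 := by
  have hMS : pt a b c d e f (x ^ 3 - x) (x ^ 2 - 1) ∈ SS K := S0_subset ⟨_, _, _, _, _, _, x, rfl⟩
  have hfr := isFrame_fr a b c d e f (x ^ 3 - x) (x ^ 2 - 1)
  set v := fr a b c d e f (x ^ 3 - x) (x ^ 2 - 1) with hv
  have hF : ∀ w, evalAt K v (dirD K w F) = 2 * (x ^ 3 - x) * evalAt K v (dirD K w G1)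
      - (3 * (x ^ 2 - 1) ^ 2 + 2 * (x ^ 2 - 1)) * evalAt K v (dirD K w G2)
      + ((x ^ 3 - x) ^ 2 - (x ^ 2 - 1) ^ 2) * evalAt K v (dirD K w (pl 0 1)) := fun w =>
    dF _ _ v w (G1_fr _ _ _ _ _ _ _ _) (G2_fr _ _ _ _ _ _ _ _) (pl01_fr _ _ _ _ _ _ _ _)
  -- a direction on which `dF ≠ 0` and whose last column vanishes
  obtain ⟨w0, hw06, hw16, hw0⟩ : ∃ w0 : Fin 2 → (Fin 7 → K), w0 0 6 = 0 ∧ w0 1 6 = 0 ∧
      differential v F w0 ≠ 0 := by
    by_cases h0 : x = 0
    · refine ⟨el 1 5, by simp [el], by simp [el], ?_⟩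
      have e1 : evalAt K v (dirD K (el 1 5) G1) = 0 := by
        rw [dG1]; simp [hv, fr, el]
      have e2 : evalAt K v (dirD K (el 1 5) G2) = 1 := by
        rw [dG2]; simp [hv, fr, el]
      have e3 : evalAt K v (dirD K (el 1 5) (pl 0 1)) = 0 := by
        rw [dirD_pl]; simp [fr, el]
      rw [differential_apply, hF, e1, e2, e3, h0]
      norm_num
    · refine ⟨el 1 3, by simp [el], by simp [el], ?_⟩
      have e1 : evalAt K v (dirD K (el 1 3) G1) = 1 := by
        rw [dG1]; simp [hv, fr, el]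
      have e2 : evalAt K v (dirD K (el 1 3) G2) = 0 := by
        rw [dG2]; simp [hv, fr, el]
      have e3 : evalAt K v (dirD K (el 1 3) (pl 0 1)) = 0 := by
        rw [dirD_pl]; simp [fr, el]
      rw [differential_apply, hF, e1, e2, e3, mul_one, mul_zero, mul_zero, sub_zero, add_zero]
      apply mul_ne_zero h2
      have : x ^ 3 - x = x * (x ^ 2 - 1) := by ring
      rw [this]
      exact mul_ne_zero h0 (sub_ne_zero.mpr hx)
  have key := finrank_le_of_ker (m := 3)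
    (LinearMap.pi ![co 0 6, co 1 6, differential v F]) (by
      intro y
      obtain ⟨s, hs⟩ : ∃ s : K, s * differential v F w0
          = y 2 - (y 0 * differential v F (el 0 6) + y 1 * differential v F (el 1 6)) :=
        ⟨_, div_mul_cancel₀ _ hw0⟩
      refine ⟨y 0 • el 0 6 + y 1 • el 1 6 + s • w0, ?_⟩
      funext i
      rw [LinearMap.pi_apply]
      fin_cases i
      · simp [el, hw06]
      · simp [el, hw16]
      · simp only [Fin.reduceFinMk, Matrix.cons_val, map_add, map_smul, smul_eq_mul, hs]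
        ring)
    (tanAt (SS K) v) (by
      intro w hw
      rw [LinearMap.mem_ker]
      have w0 := hw _ ((vanishesOn_Z 0 (S0 K) S0_pt).closure)
      have w1 := hw _ ((vanishesOn_Z 1 (S0 K) S0_pt).closure)
      have w2 := hw _ vanishesOn_F.closure
      funext i
      rw [LinearMap.pi_apply]
      fin_cases i
      · simpa using w0
      · simpa using w1
      · exact w2)
  have h3 := finrank_tanAt hMS hfr
  omega

theorem finrank_tanSp_WW_le (a b c d e f : K) :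
    Module.finrank K (tanSp (WW K) (pt a b c d e f 0 0)) ≤ 6 := by
  have hMS : pt a b c d e f 0 0 ∈ WW K := W0_subset ⟨_, _, _, _, _, _, rfl⟩
  have hfr := isFrame_fr a b c d e f (0 : K) 0
  set v := fr a b c d e f (0 : K) 0 with hv
  have key := finrank_le_of_ker (m := 4)
    (LinearMap.pi ![co 0 6, co 1 6, differential v G1, differential v G2]) (by
      intro y
      refine ⟨y 0 • el 0 6 + y 1 • el 1 6 + y 2 • el 1 3 + y 3 • el 1 5, ?_⟩
      funext i
      rw [LinearMap.pi_apply]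
      fin_cases i
      · simp [el]
      · simp [el]
      · simp only [Fin.reduceFinMk, Matrix.cons_val, map_add, map_smul, smul_eq_mul,
          differential_apply, dG1]
        simp [hv, fr, el]
      · simp only [Fin.reduceFinMk, Matrix.cons_val, map_add, map_smul, smul_eq_mul,
          differential_apply, dG2]
        simp [hv, fr, el])
    (tanAt (WW K) v) (by
      intro w hw
      rw [LinearMap.mem_ker]
      have w0 := hw _ ((vanishesOn_Z 0 (W0 K) W0_pt).closure)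
      have w1 := hw _ ((vanishesOn_Z 1 (W0 K) W0_pt).closure)
      have w2 := hw _ vanishesOn_G1.closure
      have w3 := hw _ vanishesOn_G2.closure
      funext i
      rw [LinearMap.pi_apply]
      fin_cases i
      · simpa using w0
      · simpa using w1
      · exact w2
      · exact w3)
  have h3 := finrank_tanAt hMS hfr
  omega

/-! ### Global statements -/

theorem finrank_SS_ge (h2 : (2 : K) ≠ 0) {M : Gr K (Fin 7 → K) 2} (hM : M ∈ SS K) :
    7 ≤ Module.finrank K (tanSp (SS K) M) :=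
  le_finrank_tanSp_closure S0_subset 7
    (fun _ hM' => finrank_tanSp_S0_ge h2 hM') hM hM

theorem finrank_SS_WW_ge (h2 : (2 : K) ≠ 0) {M : Gr K (Fin 7 → K) 2} (hM : M ∈ WW K) :
    8 ≤ Module.finrank K (tanSp (SS K) M) :=
  le_finrank_tanSp_closure (W0_subset.trans WW_subset_SS) 8
    (fun _ hM' => finrank_tanSp_W0_ge h2 hM') (WW_subset_SS hM) hM

theorem finrank_WW_ge {M : Gr K (Fin 7 → K) 2} (hM : M ∈ WW K) :
    6 ≤ Module.finrank K (tanSp (WW K) M) :=
  le_finrank_tanSp_closure W0_subset 6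
    (fun _ hM' => finrank_tanSp_WW_ge hM') hM hM

theorem finrank_of_smooth (h2 : (2 : K) ≠ 0) {L : Gr K (Fin 7 → K) 2}
    (hL : IsSmoothPt (SS K) L) : Module.finrank K (tanSp (SS K) L) = 7 := by
  apply le_antisymm _ (finrank_SS_ge h2 hL.1)
  have h1 := finrank_tanSp_S0_le h2 0 0 0 0 0 0 (0 : K) (by norm_num)
  exact (hL.2 _ (S0_subset ⟨_, _, _, _, _, _, 0, rfl⟩)).trans h1

theorem smooth_of_ne (h2 : (2 : K) ≠ 0) (a b c d e f x : K) (hx : x ^ 2 ≠ 1) :
    IsSmoothPt (SS K) (pt a b c d e f (x ^ 3 - x) (x ^ 2 - 1)) := by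
  refine ⟨S0_subset ⟨_, _, _, _, _, _, x, rfl⟩, fun M hM => ?_⟩
  exact (finrank_tanSp_S0_le h2 a b c d e f x hx).trans (finrank_SS_ge h2 hM)

theorem WW_subset_sing (h2 : (2 : K) ≠ 0) : WW K ⊆ singLoc (SS K) := by
  intro L hL
  refine ⟨WW_subset_SS hL, fun hsm => ?_⟩
  have h1 := finrank_of_smooth h2 hsm
  have h3 := finrank_SS_WW_ge h2 hL
  omega

theorem isIrreducible_S0 : IsIrreducible (S0 K) := by
  refine ⟨⟨_, 0, 0, 0, 0, 0, 0, 0, rfl⟩, ?_⟩
  apply isPreirreducible_of_paths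
  rintro _ ⟨a, b, c, d, e, f, x, rfl⟩ _ ⟨a', b', c', d', e', f', x', rfl⟩
  obtain ⟨C, hC⟩ : ∃ C : Fin 4 → (Fin 2 → (Fin 7 → K)), C = ![fr a b c d e f (x ^ 3 - x) (x ^ 2 - 1),
      dirv (a' - a) (b' - b) (c' - c) (d' - d) (e' - e) (f' - f)
        ((3 * x ^ 2 - 1) * (x' - x)) (2 * x * (x' - x)),
      dirv 0 0 0 0 0 0 (3 * x * (x' - x) ^ 2) ((x' - x) ^ 2),
      dirv 0 0 0 0 0 0 ((x' - x) ^ 3) 0] := ⟨_, rfl⟩
  have hpath : ∀ t : K, C 0 + t • C 1 + t ^ 2 • C 2 + t ^ 3 • C 3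
      = fr (a + t * (a' - a)) (b + t * (b' - b)) (c + t * (c' - c)) (d + t * (d' - d))
        (e + t * (e' - e)) (f + t * (f' - f))
        ((x + t * (x' - x)) ^ 3 - (x + t * (x' - x))) ((x + t * (x' - x)) ^ 2 - 1) := by
    intro t
    rw [hC]
    simp only [Matrix.cons_val_zero, Matrix.cons_val_one, Matrix.cons_val]
    rw [add_assoc, add_assoc, smul_dirv, smul_dirv, smul_dirv, dirv_add, dirv_add]
    have h4 := fr_add a b c d e f (x ^ 3 - x) (x ^ 2 - 1) 1
      (t * (a' - a) + (t ^ 2 * 0 + t ^ 3 * 0)) (t * (b' - b) + (t ^ 2 * 0 + t ^ 3 * 0))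
      (t * (c' - c) + (t ^ 2 * 0 + t ^ 3 * 0)) (t * (d' - d) + (t ^ 2 * 0 + t ^ 3 * 0))
      (t * (e' - e) + (t ^ 2 * 0 + t ^ 3 * 0)) (t * (f' - f) + (t ^ 2 * 0 + t ^ 3 * 0))
      (t * ((3 * x ^ 2 - 1) * (x' - x)) + (t ^ 2 * (3 * x * (x' - x) ^ 2) + t ^ 3 * (x' - x) ^ 3))
      (t * (2 * x * (x' - x)) + (t ^ 2 * (x' - x) ^ 2 + t ^ 3 * 0))
    rw [one_smul] at h4
    rw [dirv, h4]
    congr 1 <;> ring
  refine ⟨C, ?_, ?_, ?_⟩
  · rw [hC]
    exact isFrame_fr _ _ _ _ _ _ _ _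
  · rw [hpath 1]
    have := isFrame_fr a' b' c' d' e' f' (x' ^ 3 - x') (x' ^ 2 - 1)
    convert this using 2 <;> ring
  · intro t
    rw [hpath t]
    exact ⟨_, ⟨_, _, _, _, _, _, x + t * (x' - x), rfl⟩, isFrame_fr _ _ _ _ _ _ _ _⟩

theorem isIrreducible_W0 : IsIrreducible (W0 K) := by
  refine ⟨⟨_, 0, 0, 0, 0, 0, 0, rfl⟩, ?_⟩
  apply isPreirreducible_of_paths
  rintro _ ⟨a, b, c, d, e, f, rfl⟩ _ ⟨a', b', c', d', e', f', rfl⟩
  have hpath : ∀ t : K, fr a b c d e f 0 0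
      + t • dirv (a' - a) (b' - b) (c' - c) (d' - d) (e' - e) (f' - f) 0 0
      = fr (a + t * (a' - a)) (b + t * (b' - b)) (c + t * (c' - c)) (d + t * (d' - d))
        (e + t * (e' - e)) (f + t * (f' - f)) 0 0 := by
    intro t
    rw [dirv, fr_add, mul_zero, add_zero]
  refine ⟨![fr a b c d e f 0 0,
      dirv (a' - a) (b' - b) (c' - c) (d' - d) (e' - e) (f' - f) 0 0, 0, 0], ?_, ?_, ?_⟩
  · exact isFrame_fr _ _ _ _ _ _ _ _
  · simp only [Matrix.cons_val_zero, Matrix.cons_val_one, Matrix.cons_val, smul_zero, add_zero]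
    rw [hpath 1]
    have := isFrame_fr a' b' c' d' e' f' 0 0
    convert this using 2 <;> ring
  · intro t
    simp only [Matrix.cons_val_zero, Matrix.cons_val_one, Matrix.cons_val, smul_zero, add_zero]
    rw [hpath t]
    exact ⟨_, ⟨_, _, _, _, _, _, rfl⟩, isFrame_fr _ _ _ _ _ _ _ _⟩

theorem isIrreducible_SS : IsIrreducible (SS K) := isIrreducible_S0.closure
theorem isIrreducible_WW : IsIrreducible (WW K) := isIrreducible_W0.closure

theorem isComponent_WW (h2 : (2 : K) ≠ 0) : IsComponent (singLoc (SS K)) (WW K) := by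
  refine ⟨⟨isIrreducible_WW, WW_subset_sing h2⟩, ?_⟩
  rintro Y ⟨hY, hYS⟩ hWY y hy
  change y ∈ closure (W0 K)
  rw [mem_closure_iff]
  intro U hU hyU
  have hL0 : pt 0 0 0 0 0 0 0 0 ∈ Y := hWY (W0_subset ⟨_, _, _, _, _, _, rfl⟩)
  obtain ⟨M, hMY, hMU, hMc⟩ := hY.2 U chart hU isOpen_chart ⟨y, hy, hyU⟩
    ⟨_, hL0, pt_mem_chart 0 0 0 0 0 0 0 0⟩
  refine ⟨M, hMU, ?_⟩
  obtain ⟨a, b, c, d, e, f, x, rfl⟩ := mem_S0_of_mem_chart (hYS hMY).1 hMc
  have hx : x ^ 2 = 1 := by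
    by_contra hx
    exact (hYS hMY).2 (smooth_of_ne h2 a b c d e f x hx)
  have h1 : x ^ 3 - x = 0 := by linear_combination x * hx
  have h3 : x ^ 2 - 1 = 0 := by linear_combination hx
  rw [h1, h3]
  exact ⟨_, _, _, _, _, _, rfl⟩

theorem conSp_eq {V : Type v} [AddCommGroup V] [Module K V] [FiniteDimensional K V] {k : ℕ}
    (S : Set (Gr K V k)) (L : Gr K V k) :
    conSp S L = traceAnn (tanSp S L) := by
  ext ψ
  rw [mem_traceAnn]
  rfl

theorem finrank_conormal (S : Set (Gr K (Fin 7 → K) 2)) (L : Gr K (Fin 7 → K) 2) :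
    Module.finrank K (conSp S L) + Module.finrank K (tanSp S L) = 10 := by
  rw [conSp_eq, finrank_traceAnn]
  have h3 := Submodule.finrank_quotient_add_finrank L.space
  rw [L.finrank_space, Module.finrank_fin_fun] at h3
  rw [L.finrank_space]
  omega

theorem mem_closure_of_eq_three {L : Gr K (Fin 7 → K) 2}
    (N : Submodule K (((Fin 7 → K) ⧸ L.space) →ₗ[K] L.space)) (c : ℕ)
    (hc : Module.finrank K N = c) (h3 : c = 3)
    (h : ((Fin 7 → K) ⧸ L.space) →ₗ[K] K) (hh : h ≠ 0)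
    (hN : ∀ l : L.space, h.smulRight l ∈ N) :
    (⟨N, hc⟩ : Gr K (((Fin 7 → K) ⧸ L.space) →ₗ[K] L.space) c) ∈ closure (rkOneSp L c) := by
  subst h3
  exact mem_closure_rkOneSp L ⟨N, hc⟩ h hh hN

theorem isCoisotropic_SS (h2 : (2 : K) ≠ 0) : IsCoiso (SS K) := by
  intro L hL
  obtain ⟨v, hv⟩ := exists_isFrame L (Or.inl (by norm_num))
  have hZ : ∀ l ∈ L.space, l 6 = 0 := by
    intro l hl
    rw [← hv.2] at hl
    refine Submodule.span_induction (p := fun l _ => l 6 = 0) ?_ ?_ ?_ ?_ hl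
    · rintro _ ⟨i, rfl⟩
      exact Z_SS hL.1 hv i
    · simp
    · intro x y _ _ hx hy
      rw [Pi.add_apply, hx, hy, add_zero]
    · intro a x _ hx
      rw [Pi.smul_apply, hx, smul_zero]
  let h : ((Fin 7 → K) ⧸ L.space) →ₗ[K] K := L.space.liftQ (LinearMap.proj 6) (by
    intro l hl
    rw [LinearMap.mem_ker]
    exact hZ l hl)
  have hmk : ∀ y : Fin 7 → K, h (L.space.mkQ y) = y 6 := fun y => rfl
  apply mem_closure_of_eq_three (conSp (SS K) L) _ rfl ?_ h ?_ ?_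
  · have h1 := finrank_conormal (SS K) L
    have h3 := finrank_of_smooth h2 hL
    omega
  · intro h0
    have h1 := hmk (Pi.single 6 1)
    rw [h0] at h1
    simp at h1
  · intro l φ hφ
    rw [trace_smulRight_comp]
    rw [mem_tanSp_iff hL.1 ⟨v, hv⟩] at hφ
    obtain ⟨w, rfl⟩ := liftMap_surjective hv φ
    rw [isTangent_liftMap_iff hL.1 hv] at hφ
    have hzero : h ∘ₗ liftMap hv w = 0 := by
      apply hv.basis.ext
      intro i
      rw [LinearMap.comp_apply, hv.basis_apply, liftMap_apply, hmk, LinearMap.zero_apply]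
      have := hφ _ ((vanishesOn_Z i (S0 K) S0_pt).closure)
      simpa using this
    exact LinearMap.congr_fun hzero l

theorem not_isCoisotropic_WW : ¬ IsCoiso (WW K) := by
  intro hco
  let L0 : Gr K (Fin 7 → K) 2 := pt 0 0 0 0 0 0 0 0
  have hL0 : L0 ∈ WW K := W0_subset ⟨_, _, _, _, _, _, rfl⟩
  have hfr : IsFrame (fr (0 : K) 0 0 0 0 0 0 0) L0 := isFrame_fr _ _ _ _ _ _ _ _
  have hsm : IsSmoothPt (WW K) L0 :=
    ⟨hL0, fun M hM => (finrank_tanSp_WW_le 0 0 0 0 0 0).trans (finrank_WW_ge hM)⟩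
  have h1 := hco L0 hsm
  have hT : Module.finrank K (tanSp (WW K) L0) = 6 :=
    le_antisymm (finrank_tanSp_WW_le 0 0 0 0 0 0) (finrank_WW_ge hL0)
  have hN := finrank_conormal (WW K) L0
  have hQ : Module.finrank K ((Fin 7 → K) ⧸ L0.space) = 5 := by
    have h3 := Submodule.finrank_quotient_add_finrank L0.space
    rw [L0.finrank_space, Module.finrank_fin_fun] at h3
    omega
  obtain ⟨v, hv⟩ := exists_isFrame (⟨conSp (WW K) L0, rfl⟩ :
      Gr K (((Fin 7 → K) ⧸ L0.space) →ₗ[K] L0.space)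
        (Module.finrank K (conSp (WW K) L0))) (Or.inl (by omega))
  obtain ⟨z, hz0, hz⟩ := closure_common_kernel _ (by
    rintro M ⟨A, hA, hAM⟩
    exact exists_common_kernel M.space A hA hAM M.finrank_space
      (finite_space M (by omega)) (by omega)) _ h1 v hv
  obtain ⟨y, rfl⟩ := L0.space.mkQ_surjective z
  have hmem : ∀ ξ : L0.space →ₗ[K] K, ξ.smulRight (L0.space.mkQ y) ∈ tanSp (WW K) L0 := by
    intro ξ
    apply mem_of_traceAnn
    intro ψ hψ
    rw [trace_comp_smulRight]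
    rw [← conSp_eq] at hψ
    have : ψ (L0.space.mkQ y) = 0 := hz ψ hψ
    rw [this, map_zero]
  have hmem2 : ∀ i : Fin 2, (fun j => if i = j then y else 0 : Fin 2 → (Fin 7 → K))
      ∈ tanAt (WW K) (fr (0 : K) 0 0 0 0 0 0 0) := by
    intro i
    rw [tanAt_eq_comap hL0 hfr, Submodule.mem_comap]
    have h5 := hmem (hfr.basis.coord i)
    convert h5 using 1
    apply hfr.basis.ext
    intro j
    rw [LinearMap.smulRight_apply, Module.Basis.coord_apply, Module.Basis.repr_self,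
      hfr.basis_apply, liftMap_apply, Finsupp.single_apply]
    by_cases hij : i = j
    · subst hij; simp
    · simp [hij, Ne.symm hij]
  have y2 : y 2 = 0 := by
    have := hmem2 0 _ vanishesOn_G1.closure
    rw [dG1] at this
    simpa [fr] using this
  have y4 : y 4 = 0 := by
    have := hmem2 0 _ vanishesOn_G2.closure
    rw [dG2] at this
    simpa [fr] using this
  have y3 : y 3 = 0 := by
    have := hmem2 1 _ vanishesOn_G1.closure
    rw [dG1] at this
    simpa [fr] using this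
  have y5 : y 5 = 0 := by
    have := hmem2 1 _ vanishesOn_G2.closure
    rw [dG2] at this
    simpa [fr] using this
  have y6 : y 6 = 0 := by
    have := hmem2 0 _ ((vanishesOn_Z 0 (W0 K) W0_pt).closure)
    simpa using this
  apply hz0
  rw [Submodule.mkQ_apply, Submodule.Quotient.mk_eq_zero]
  have : y = y 0 • fr (0 : K) 0 0 0 0 0 0 0 0 + y 1 • fr (0 : K) 0 0 0 0 0 0 0 1 := by
    funext j
    fin_cases j <;> simp [fr, y2, y3, y4, y5, y6]
  rw [this]
  exact Submodule.add_mem _ (Submodule.smul_mem _ _ (hfr.mem 0))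
    (Submodule.smul_mem _ _ (hfr.mem 1))

end Infinite

end Pool.Agent.Lib.MP_4a09cd_ag
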