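import Pool.Agent.Lib.MP_4a09cd_ag.Basic

set_option autoImplicit false

open MvPolynomial

namespace Pool.Agent.Lib.MP_4a09cd_ag

universe u v

variable {K : Type u} [Field K]
variable {V : Type v} [AddCommGroup V] [Module K V] {k : ℕ}

theorem Gr.ext' {L M : Gr K V k} (h : L.space = M.space) : L = M := by
  cases L; cases M; cases h; rfl

theorem isFrame_iff (v : Fin k → V) (L : Gr K V k) :
    IsFrame v L ↔ Submodule.span K (Set.range v) = L.space := by
  refine ⟨fun h => h.2, fun h => ⟨?_, h⟩⟩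
  rw [linearIndependent_iff_card_eq_finrank_span, Set.finrank, h, L.finrank_space]
  simp

theorem IsFrame.mem {v : Fin k → V} {L : Gr K V k} (h : IsFrame v L) (i : Fin k) :
    v i ∈ L.space := by
  rw [← h.2]; exact Submodule.subset_span ⟨i, rfl⟩

theorem isFrame_spanPoint (v : Fin k → V) (hv : LinearIndependent K v) :
    IsFrame v (spanPoint ⟨v, hv⟩) := ⟨hv, rfl⟩

theorem IsFrame.eq_spanPoint {v : Fin k → V} {L : Gr K V k} (h : IsFrame v L) :
    spanPoint ⟨v, h.1⟩ = L := Gr.ext' h.2

theorem exists_isFrame (L : Gr K V k) (hk : 0 < k ∨ FiniteDimensional K L.space) :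
    ∃ v : Fin k → V, IsFrame v L := by
  have hfd : FiniteDimensional K L.space := by
    rcases hk with hk | hk
    · exact Module.finite_of_finrank_pos (by rw [L.finrank_space]; exact hk)
    · exact hk
  let b := Module.finBasisOfFinrankEq K L.space L.finrank_space
  refine ⟨fun i => (b i : V), ?_⟩
  rw [isFrame_iff]
  have : Set.range (fun i => (b i : V)) = L.space.subtype '' (Set.range b) := by
    ext x; simp
  rw [this, Submodule.span_image, b.span_eq]
  simp

/-- The action of `k × k` matrices on `k`-tuples of vectors. -/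
def act (A : Matrix (Fin k) (Fin k) K) : (Fin k → V) →ₗ[K] (Fin k → V) where
  toFun v i := ∑ j, A i j • v j
  map_add' v w := by ext i; simp [Finset.sum_add_distrib]
  map_smul' a v := by
    ext i
    simp only [Pi.smul_apply, RingHom.id_apply, Finset.smul_sum]
    refine Finset.sum_congr rfl fun j _ => ?_
    rw [smul_comm]

theorem act_apply (A : Matrix (Fin k) (Fin k) K) (v : Fin k → V) (i : Fin k) :
    act A v i = ∑ j, A i j • v j := rfl

theorem act_mul (A B : Matrix (Fin k) (Fin k) K) (v : Fin k → V) :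
    act (A * B) v = act A (act B v) := by
  ext i
  simp only [act_apply, Matrix.mul_apply, Finset.sum_smul, Finset.smul_sum]
  rw [Finset.sum_comm]
  refine Finset.sum_congr rfl fun j _ => Finset.sum_congr rfl fun l _ => ?_
  rw [mul_smul]

theorem act_one (v : Fin k → V) : act (1 : Matrix (Fin k) (Fin k) K) v = v := by
  ext i
  simp only [act_apply, Matrix.one_apply]
  simp

theorem act_mem {A : Matrix (Fin k) (Fin k) K} {v : Fin k → V} {L : Gr K V k}
    (h : IsFrame v L) (i : Fin k) : act A v i ∈ L.space := by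
  rw [act_apply]
  exact Submodule.sum_mem _ fun j _ => Submodule.smul_mem _ _ (h.mem j)

theorem IsFrame.act {A : Matrix (Fin k) (Fin k) K} (hA : IsUnit A.det) {v : Fin k → V}
    {L : Gr K V k} (h : IsFrame v L) : IsFrame (act A v) L := by
  rw [isFrame_iff]
  apply le_antisymm
  · rw [Submodule.span_le]
    rintro _ ⟨i, rfl⟩
    exact act_mem h i
  · rw [← h.2, Submodule.span_le]
    rintro _ ⟨i, rfl⟩
    have : v i = MP_4a09cd_ag.act A⁻¹ (MP_4a09cd_ag.act A v) i := by
      rw [← act_mul, Matrix.nonsing_inv_mul _ hA, act_one]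
    rw [this, act_apply]
    exact Submodule.sum_mem _ fun j _ => Submodule.smul_mem _ _ (Submodule.subset_span ⟨j, rfl⟩)

theorem exists_act_eq {v w : Fin k → V} {L : Gr K V k} (h : IsFrame v L)
    (hw : ∀ i, w i ∈ L.space) : ∃ B : Matrix (Fin k) (Fin k) K, MP_4a09cd_ag.act B v = w := by
  have : ∀ i, ∃ c : Fin k → K, ∑ j, c j • v j = w i := by
    intro i
    have hi := hw i
    rw [← h.2] at hi
    exact (Submodule.mem_span_range_iff_exists_fun K).mp hi
  choose c hc using this
  exact ⟨Matrix.of c, by ext i; rw [act_apply]; exact hc i⟩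

theorem exists_act_eq_of_isFrame {v w : Fin k → V} {L : Gr K V k} (h : IsFrame v L)
    (hw : IsFrame w L) : ∃ B : Matrix (Fin k) (Fin k) K, IsUnit B.det ∧
      MP_4a09cd_ag.act B v = w := by
  obtain ⟨B, hB⟩ := exists_act_eq h hw.mem
  obtain ⟨C, hC⟩ := exists_act_eq hw h.mem
  refine ⟨B, ?_, hB⟩
  have h1 : MP_4a09cd_ag.act (C * B) v = v := by rw [act_mul, hB, hC]
  have h2 : C * B = 1 := by
    ext i j
    have h3 := congrFun h1 i
    rw [act_apply] at h3
    have h4 : ∑ l, ((C * B) i l - (1 : Matrix (Fin k) (Fin k) K) i l) • v l = 0 := by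
      simp only [sub_smul, Finset.sum_sub_distrib, h3]
      have := congrFun (act_one (K := K) v) i
      rw [act_apply] at this
      rw [this, sub_self]
    have h5 := Fintype.linearIndependent_iff.mp h.1 _ h4 j
    exact sub_eq_zero.mp h5
  have h6 : C.det * B.det = 1 := by rw [← Matrix.det_mul, h2, Matrix.det_one]
  exact IsUnit.of_mul_eq_one _ (by rw [mul_comm]; exact h6)

theorem VanOn.pullback_act {f : MvPolynomial (Module.Dual K (Fin k → V)) K}
    {S : Set (Gr K V k)} (hf : VanOn f S) {A : Matrix (Fin k) (Fin k) K}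
    (hA : IsUnit A.det) : VanOn (pullback (MP_4a09cd_ag.act A) f) S := by
  intro M hM u hu
  rw [evalAt_pullback]
  exact hf M hM _ (hu.act hA)

theorem isOpen_gr_iff (U : Set (Gr K V k)) :
    IsOpen U ↔ ∀ (v : Fin k → V) (hv : LinearIndependent K v), spanPoint ⟨v, hv⟩ ∈ U →
      ∃ f : MvPolynomial (Module.Dual K (Fin k → V)) K, evalAt K v f ≠ 0 ∧
        ∀ (v' : Fin k → V) (hv' : LinearIndependent K v'), evalAt K v' f ≠ 0 →
          spanPoint ⟨v', hv'⟩ ∈ U := by
  let τ : TopologicalSpace (Fin k → V) := zariski K (Fin k → V)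
  have h1 : IsOpen U ↔ @IsOpen {v : Fin k → V // LinearIndependent K v}
      (@instTopologicalSpaceSubtype _ (fun v : Fin k → V => LinearIndependent K v) τ)
      (spanPoint ⁻¹' U) := isOpen_coinduced
  rw [h1, @isOpen_induced_iff]
  constructor
  · rintro ⟨T, hT, hTU⟩ v hv hvU
    rw [isOpen_zariski_iff] at hT
    have hvT : v ∈ T := by
      have : (⟨v, hv⟩ : {v : Fin k → V // LinearIndependent K v}) ∈ Subtype.val ⁻¹' T := by
        rw [hTU]; exact hvU
      exact this
    obtain ⟨f, hf, hfT⟩ := hT v hvT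
    refine ⟨f, hf, fun v' hv' hfv' => ?_⟩
    have : (⟨v', hv'⟩ : {v : Fin k → V // LinearIndependent K v}) ∈ spanPoint ⁻¹' U := by
      rw [← hTU]; exact hfT v' hfv'
    exact this
  · intro h
    refine ⟨{v | ∃ f : MvPolynomial (Module.Dual K (Fin k → V)) K, evalAt K v f ≠ 0 ∧
        ∀ (v' : Fin k → V) (hv' : LinearIndependent K v'), evalAt K v' f ≠ 0 →
          spanPoint ⟨v', hv'⟩ ∈ U}, ?_, ?_⟩
    · rw [isOpen_zariski_iff]
      rintro w ⟨f, hf, hfU⟩
      exact ⟨f, hf, fun w' hw' => ⟨f, hw', hfU⟩⟩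
    · ext ⟨v, hv⟩
      constructor
      · rintro ⟨f, hf, hfU⟩
        exact hfU v hv hf
      · intro hvU
        exact h v hv hvU

theorem mem_closure_of_exists {S : Set (Gr K V k)} {L : Gr K V k} {v : Fin k → V}
    (hv : IsFrame v L) (h : ∀ f, VanOn f S → evalAt K v f = 0) : L ∈ closure S := by
  rw [mem_closure_iff]
  intro U hU hLU
  rw [isOpen_gr_iff] at hU
  obtain ⟨f, hf, hfU⟩ := hU v hv.1 (by rw [hv.eq_spanPoint]; exact hLU)
  by_contra hne
  apply hf
  apply h
  intro M hM u hu
  by_contra hfu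
  have := hfU u hu.1 hfu
  rw [hu.eq_spanPoint] at this
  exact hne ⟨M, this, hM⟩

theorem VanOn.closure {S : Set (Gr K V k)}
    {f : MvPolynomial (Module.Dual K (Fin k → V)) K} (hf : VanOn f S) :
    VanOn f (closure S) := by
  have hclosed : IsClosed {M : Gr K V k | ∀ u, IsFrame u M → evalAt K u f = 0} := by
    rw [← isOpen_compl_iff, isOpen_gr_iff]
    intro v hv hvU
    simp only [Set.mem_compl_iff, Set.mem_setOf_eq, not_forall] at hvU
    obtain ⟨u, hu, hfu⟩ := hvU
    obtain ⟨A, hA, hAu⟩ := exists_act_eq_of_isFrame (isFrame_spanPoint v hv) hu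
    refine ⟨pullback (MP_4a09cd_ag.act A) f, ?_, ?_⟩
    · rw [evalAt_pullback, hAu]; exact hfu
    · intro v' hv' hfv'
      rw [evalAt_pullback] at hfv'
      intro hall
      exact hfv' (hall _ ((isFrame_spanPoint v' hv').act hA))
  have hsub : S ⊆ {M : Gr K V k | ∀ u, IsFrame u M → evalAt K u f = 0} := fun M hM => hf M hM
  intro M hM
  exact (closure_minimal hsub hclosed) hM

theorem VanOn.mono {S T : Set (Gr K V k)} (h : S ⊆ T)
    {f : MvPolynomial (Module.Dual K (Fin k → V)) K} (hf : VanOn f T) :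
    VanOn f S := fun M hM => hf M (h hM)

theorem vanishesOn_closure_iff {S : Set (Gr K V k)}
    {f : MvPolynomial (Module.Dual K (Fin k → V)) K} :
    VanOn f (closure S) ↔ VanOn f S :=
  ⟨fun h => h.mono subset_closure, fun h => h.closure⟩

end Pool.Agent.Lib.MP_4a09cd_ag
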