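import Pool.Agent.Lib.MP_4a09cd_ag.Defs

/-!
# Bundled versions of the definitions, used in the proofs
-/

set_option autoImplicit false

open MvPolynomial

namespace Pool.Agent.Lib.MP_4a09cd_ag

universe u v

section General

variable (K : Type u) [Field K]

/-- Evaluation as a ring homomorphism. -/
noncomputable def evalAt {W : Type v} [AddCommGroup W] [Module K W] (w : W) :
    MvPolynomial (Module.Dual K W) K →+* K :=
  MvPolynomial.eval (fun χ : Module.Dual K W => χ w)

/-- Directional derivative as a derivation. -/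
noncomputable def dirD {W : Type v} [AddCommGroup W] [Module K W] (w : W) :
    Derivation K (MvPolynomial (Module.Dual K W) K) (MvPolynomial (Module.Dual K W) K) :=
  MvPolynomial.mkDerivation K (fun χ : Module.Dual K W => C (χ w))

end General

variable {K : Type u} [Field K]
variable {V : Type v} [AddCommGroup V] [Module K V] {k : ℕ}

/-- Internal version of `VanishesOn`. -/
def VanOn (f : MvPolynomial (Module.Dual K (Fin k → V)) K) (S : Set (Gr K V k)) : Prop :=
  ∀ M ∈ S, ∀ u : Fin k → V, IsFrame u M → evalAt K u f = 0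

/-- Internal version of `IsTangent`. -/
def IsTan (S : Set (Gr K V k)) (L : Gr K V k) (φ : L.space →ₗ[K] V ⧸ L.space) : Prop :=
  ∀ v w : Fin k → V, IsFrame v L →
    (∀ (i : Fin k) (hi : v i ∈ L.space), L.space.mkQ (w i) = φ ⟨v i, hi⟩) →
    ∀ f : MvPolynomial (Module.Dual K (Fin k → V)) K, VanOn f S →
      evalAt K v (dirD K w f) = 0

/-- Internal version of `tangentSpace`. -/
noncomputable def tanSp (S : Set (Gr K V k)) (L : Gr K V k) :
    Submodule K (L.space →ₗ[K] V ⧸ L.space) :=
  Submodule.span K {φ | IsTan S L φ}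

/-- Internal version of `conormalSpace`. -/
noncomputable def conSp (S : Set (Gr K V k)) (L : Gr K V k) :
    Submodule K ((V ⧸ L.space) →ₗ[K] L.space) where
  carrier := {ψ | ∀ φ ∈ tanSp S L, LinearMap.trace K L.space (ψ ∘ₗ φ) = 0}
  zero_mem' := by intro φ _; simp
  add_mem' := by
    intro ψ ψ' h h' φ hφ
    rw [LinearMap.add_comp, map_add, h φ hφ, h' φ hφ, add_zero]
  smul_mem' := by
    intro a ψ h φ hφ
    rw [LinearMap.smul_comp, map_smul, h φ hφ, smul_zero]

/-- Internal version of `IsSmoothPoint`. -/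
def IsSmoothPt (S : Set (Gr K V k)) (L : Gr K V k) : Prop :=
  L ∈ S ∧ ∀ M ∈ S, Module.finrank K (tanSp S L) ≤ Module.finrank K (tanSp S M)

/-- Internal version of `singularLocus`. -/
def singLoc (S : Set (Gr K V k)) : Set (Gr K V k) :=
  {L | L ∈ S ∧ ¬ IsSmoothPt S L}

/-- Internal version of `rankOneSpanned`. -/
def rkOneSp (L : Gr K V k) (c : ℕ) : Set (Gr K ((V ⧸ L.space) →ₗ[K] L.space) c) :=
  {N | ∃ A : Set ((V ⧸ L.space) →ₗ[K] L.space),
    (∀ ψ ∈ A, Module.finrank K (LinearMap.range ψ) = 1) ∧ Submodule.span K A = N.space}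

/-- Internal version of `IsCoisotropic`. -/
def IsCoiso (S : Set (Gr K V k)) : Prop :=
  ∀ L : Gr K V k, IsSmoothPt S L →
    (⟨conSp S L, rfl⟩ :
      Gr K ((V ⧸ L.space) →ₗ[K] L.space) (Module.finrank K (conSp S L))) ∈
      closure (rkOneSp L (Module.finrank K (conSp S L)))

/-! ### Comparison -/

theorem isSmoothPoint_iff (S : Set (Gr K V k)) (L : Gr K V k) :
    IsSmoothPoint S L ↔ IsSmoothPt S L := Iff.rfl

theorem singularLocus_eq (S : Set (Gr K V k)) : singularLocus S = singLoc S := rfl

theorem rankOneSpanned_eq (L : Gr K V k) (c : ℕ) : rankOneSpanned L c = rkOneSp L c := rfl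

theorem conormalSpace_eq_conSp (S : Set (Gr K V k)) (L : Gr K V k) :
    conormalSpace S L = conSp S L :=
  Submodule.span_eq (conSp S L)

theorem isCoisotropic_iff (S : Set (Gr K V k)) : IsCoisotropic S ↔ IsCoiso S := by
  have key : ∀ (L : Gr K V k) (N : Submodule K (CotangentHom L)) (h : N = conSp S L),
      ((⟨N, rfl⟩ : Gr K (CotangentHom L) (Module.finrank K N))
        ∈ closure (rankOneSpanned L (Module.finrank K N))) ↔
      ((⟨conSp S L, rfl⟩ : Gr K ((V ⧸ L.space) →ₗ[K] L.space) (Module.finrank K (conSp S L))) ∈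
        closure (rkOneSp L (Module.finrank K (conSp S L)))) := by
    intro L N h
    subst h
    exact Iff.rfl
  constructor
  · intro h L hL
    exact (key L _ (conormalSpace_eq_conSp S L)).mp (h L hL)
  · intro h L hL
    exact (key L _ (conormalSpace_eq_conSp S L)).mpr (h L hL)

end Pool.Agent.Lib.MP_4a09cd_ag
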