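import Pool.Agent.Lib.MP_4a09cd_ag.Coiso

set_option autoImplicit false

open MvPolynomial

namespace Pool.Agent.Lib.MP_4a09cd_ag

universe u v

variable {K : Type u} [Field K]

section

variable {P Q : Type v} [AddCommGroup P] [Module K P]
  [AddCommGroup Q] [Module K Q] [FiniteDimensional K Q]

/-- A `c`-dimensional space of homomorphisms spanned by rank one homomorphisms has a common
kernel vector if `c < dim Q`. -/
theorem exists_common_kernel (M : Submodule K (Q →ₗ[K] P)) (A : Set (Q →ₗ[K] P))
    (hA : ∀ ψ ∈ A, Module.finrank K (LinearMap.range ψ) = 1)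
    (hspan : Submodule.span K A = M) {c : ℕ} (hc : Module.finrank K M = c)
    (hfd : FiniteDimensional K M)
    (hcQ : c < Module.finrank K Q) : ∃ z : Q, z ≠ 0 ∧ ∀ ψ ∈ M, ψ z = 0 := by
  obtain ⟨b, hbA, hbs, hbli⟩ := exists_linearIndependent K A
  have hbM : Submodule.span K b = M := by rw [hbs, hspan]
  have hli2 : LinearIndependent K (fun x : b => (⟨x.1, by
      rw [← hbM]; exact Submodule.subset_span x.2⟩ : M)) := by
    apply LinearIndependent.of_comp M.subtype
    exact hbli
  have hfin : Finite b := hli2.finite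
  have hft : Fintype b := Fintype.ofFinite b
  have hcard : Fintype.card b ≤ c := by
    rw [← hc]; exact hli2.fintype_card_le_finrank
  let G : Q →ₗ[K] ((x : b) → LinearMap.range x.1) := LinearMap.pi fun x => x.1.rangeRestrict
  have hfr : Module.finrank K ((x : b) → LinearMap.range x.1) = Fintype.card b := by
    haveI : ∀ x : b, FiniteDimensional K (LinearMap.range x.1) := fun x =>
      Module.finite_of_finrank_pos (by rw [hA x.1 (hbA x.2)]; norm_num)
    rw [Module.finrank_pi_fintype]
    simp [fun x : b => hA x.1 (hbA x.2)]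
  have hker : LinearMap.ker G ≠ ⊥ := by
    haveI : ∀ x : b, FiniteDimensional K (LinearMap.range x.1) := fun x =>
      Module.finite_of_finrank_pos (by rw [hA x.1 (hbA x.2)]; norm_num)
    apply LinearMap.ker_ne_bot_of_finrank_lt
    rw [hfr]
    omega
  obtain ⟨z, hz, hz0⟩ := Submodule.exists_mem_ne_zero_of_ne_bot hker
  refine ⟨z, hz0, ?_⟩
  intro ψ hψ
  rw [← hbM] at hψ
  refine Submodule.span_induction (p := fun ψ _ => ψ z = 0) ?_ ?_ ?_ ?_ hψ
  · intro ψ hψb
    have h1 := congrFun (LinearMap.mem_ker.mp hz) ⟨ψ, hψb⟩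
    have h2 := congrArg Subtype.val h1
    exact h2
  · simp
  · intro x y _ _ hx hy
    rw [LinearMap.add_apply, hx, hy, add_zero]
  · intro a x _ hx
    rw [LinearMap.smul_apply, hx, smul_zero]

/-- The linear functional `u ↦ ξ (ρ (u · z))`. -/
noncomputable def entry {c : ℕ} (ρ : (Fin c → P) →ₗ[K] Q) (ξ : Q →ₗ[K] K) (z : Q) :
    Module.Dual K (Fin c → (Q →ₗ[K] P)) where
  toFun u := ξ (ρ (fun l => u l z))
  map_add' u u' := by
    rw [← map_add, ← map_add]; rfl
  map_smul' a u := by
    rw [RingHom.id_apply, ← map_smul, ← map_smul]; rfl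

theorem entry_apply {c : ℕ} (ρ : (Fin c → P) →ₗ[K] Q) (ξ : Q →ₗ[K] K) (z : Q)
    (u : Fin c → (Q →ₗ[K] P)) : entry ρ ξ z u = ξ (ρ (fun l => u l z)) := rfl

/-- If a set of subspaces has the property that each member has a common kernel vector then
so does each member of the Zariski closure. -/
theorem closure_common_kernel {c : ℕ} (R : Set (Gr K (Q →ₗ[K] P) c))
    (hR : ∀ M ∈ R, ∃ z : Q, z ≠ 0 ∧ ∀ ψ ∈ M.space, ψ z = 0)
    (N : Gr K (Q →ₗ[K] P) c) (hN : N ∈ closure R) (v : Fin c → (Q →ₗ[K] P))
    (hv : IsFrame v N) :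
    ∃ z : Q, z ≠ 0 ∧ ∀ ψ ∈ N.space, ψ z = 0 := by
  by_contra hne
  push Not at hne
  let Ψ : Q →ₗ[K] (Fin c → P) := LinearMap.pi v
  have hker : LinearMap.ker Ψ = ⊥ := by
    rw [Submodule.eq_bot_iff]
    intro z hz
    by_contra hz0
    obtain ⟨ψ, hψ, hψz⟩ := hne z hz0
    apply hψz
    rw [← hv.2] at hψ
    refine Submodule.span_induction (p := fun ψ _ => ψ z = 0) ?_ ?_ ?_ ?_ hψ
    · rintro _ ⟨i, rfl⟩
      exact congrFun (LinearMap.mem_ker.mp hz) i
    · simp
    · intro x y _ _ hx hy
      rw [LinearMap.add_apply, hx, hy, add_zero]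
    · intro a x _ hx
      rw [LinearMap.smul_apply, hx, smul_zero]
  obtain ⟨ρ, hρ⟩ := LinearMap.exists_leftInverse_of_injective Ψ hker
  let q := Module.finBasis K Q
  let f : MvPolynomial (Module.Dual K (Fin c → (Q →ₗ[K] P))) K :=
    Matrix.det (Matrix.of fun i j => X (entry ρ (q.coord i) (q j)))
  have hf : ∀ u, evalAt K u f
      = Matrix.det (Matrix.of fun i j => q.coord i (ρ (fun l => u l (q j)))) := by
    intro u
    simp only [f]
    rw [RingHom.map_det]
    congr 1
    ext i j
    simp [entry_apply]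
  have hfv : evalAt K v f = 1 := by
    rw [hf]
    have : (Matrix.of fun i j => q.coord i (ρ (fun l => v l (q j))))
        = (1 : Matrix _ _ K) := by
      ext i j
      have h1 : ρ (fun l => v l (q j)) = q j := LinearMap.congr_fun hρ (q j)
      rw [Matrix.of_apply, h1, Module.Basis.coord_apply, Module.Basis.repr_self,
        Matrix.one_apply, Finsupp.single_apply]
      simp [eq_comm]
    rw [this, Matrix.det_one]
  have hvan : VanOn f R := by
    intro M hM u hu
    obtain ⟨z, hz0, hz⟩ := hR M hM
    rw [hf]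
    apply Matrix.exists_mulVec_eq_zero_iff.mp
    refine ⟨fun j => q.repr z j, ?_, ?_⟩
    · intro h0
      apply hz0
      apply q.repr.injective
      rw [map_zero]
      ext j
      exact congrFun h0 j
    · ext i
      simp only [Matrix.mulVec, dotProduct, Matrix.of_apply, Pi.zero_apply]
      have h1 : ∑ j, q.coord i (ρ (fun l => u l (q j))) * q.repr z j
          = entry ρ (q.coord i) z u := by
        have h2 : ∀ j, q.coord i (ρ (fun l => u l (q j))) * q.repr z j
            = q.coord i (ρ (fun l => u l (q.repr z j • q j))) := by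
          intro j
          have h3 : (fun l => u l (q.repr z j • q j)) = q.repr z j • (fun l => u l (q j)) := by
            funext l; simp
          rw [h3, map_smul, map_smul, smul_eq_mul, mul_comm]
        rw [Finset.sum_congr rfl (fun j _ => h2 j), ← map_sum, ← map_sum, entry_apply]
        congr 2
        funext l
        rw [Finset.sum_apply, ← map_sum, q.sum_repr]
      rw [h1, entry_apply]
      have h4 : (fun l => u l z) = 0 := by
        funext l
        exact hz _ (hu.mem l)
      rw [h4, map_zero, map_zero]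
  have := hvan.closure N hN v hv
  rw [hfv] at this
  exact one_ne_zero this

end

end Pool.Agent.Lib.MP_4a09cd_ag
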