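import Pool.Agent.Lib.MP_4a09cd_ag.Tangent

set_option autoImplicit false

open MvPolynomial

namespace Pool.Agent.Lib.MP_4a09cd_ag

universe u v

variable {K : Type u} [Field K]
variable {V : Type v} [AddCommGroup V] [Module K V] {k : ℕ}

/-- The vanishing polynomials of `S` as a linear subspace. -/
def vanSub (S : Set (Gr K V k)) : Submodule K (MvPolynomial (Module.Dual K (Fin k → V)) K) where
  carrier := {f | VanOn f S}
  zero_mem' := by intro M _ u _; simp
  add_mem' := by
    intro f g hf hg M hM u hu
    rw [map_add, hf M hM u hu, hg M hM u hu, add_zero]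
  smul_mem' := by
    intro a f hf M hM u hu
    rw [MvPolynomial.smul_eq_C_mul, map_mul, hf M hM u hu, mul_zero]

/-- The span of the differentials at `v` of the functions vanishing on `S`. -/
noncomputable def jac (S : Set (Gr K V k)) (v : Fin k → V) :
    Submodule K (Module.Dual K (Fin k → V)) :=
  (vanSub S).map (differentialₗ v)

theorem tanAt_eq_dualCoannihilator (S : Set (Gr K V k)) (v : Fin k → V) :
    tanAt S v = (jac S v).dualCoannihilator := by
  ext w
  rw [mem_tanAt, Submodule.mem_dualCoannihilator]
  constructor
  · rintro h _ ⟨f, hf, rfl⟩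
    exact h f hf
  · intro h f hf
    exact h _ ⟨f, hf, rfl⟩

theorem finrank_jac_add [FiniteDimensional K V] (S : Set (Gr K V k)) (v : Fin k → V) :
    Module.finrank K (jac S v) + Module.finrank K (tanAt S v)
      = Module.finrank K (Fin k → V) := by
  rw [tanAt_eq_dualCoannihilator]
  exact Subspace.finrank_add_finrank_dualCoannihilator_eq _

theorem exists_dual_vectors {W : Type v} [AddCommGroup W] [Module K W] [FiniteDimensional K W]
    {m : ℕ} (g : Fin m → Module.Dual K W) (hg : LinearIndependent K g) :
    ∃ w : Fin m → W, ∀ i j, g i (w j) = if i = j then 1 else 0 := by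
  let G : W →ₗ[K] (Fin m → K) := LinearMap.pi g
  have hG : Function.Surjective G := by
    rw [← LinearMap.dualMap_injective_iff]
    rw [injective_iff_map_eq_zero]
    intro θ hθ
    have h1 : ∑ i, θ (Pi.single i 1) • g i = 0 := by
      ext w
      have h2 := LinearMap.congr_fun hθ w
      rw [LinearMap.dualMap_apply] at h2
      have h3 : G w = ∑ i, g i w • (Pi.single i 1 : Fin m → K) := by
        ext j
        simp [G, Finset.sum_apply, Pi.single_apply]
      rw [h3, map_sum] at h2
      simp only [map_smul, smul_eq_mul, LinearMap.zero_apply] at h2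
      simp only [LinearMap.coe_sum, Finset.sum_apply, LinearMap.smul_apply, smul_eq_mul,
        LinearMap.zero_apply]
      rw [← h2]
      exact Finset.sum_congr rfl fun i _ => mul_comm _ _
    have h4 := Fintype.linearIndependent_iff.mp hg _ h1
    apply LinearMap.pi_ext'
    intro i
    apply LinearMap.ext_ring
    simpa using h4 i
  have : ∀ j, ∃ w, G w = fun i => if i = j then 1 else 0 := fun j => hG _
  choose w hw using this
  exact ⟨w, fun i j => congrFun (hw j) i⟩

theorem exists_li_of_finrank {D : Type*} [AddCommGroup D] [Module K D] [FiniteDimensional K D]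
    (J : Submodule K D) {m : ℕ} (hm : Module.finrank K J = m) :
    ∃ b : Fin m → D, (∀ i, b i ∈ J) ∧ LinearIndependent K b := by
  let b := Module.finBasisOfFinrankEq K J hm
  exact ⟨fun i => (b i : D), fun i => (b i).2,
    b.linearIndependent.map' J.subtype (Submodule.ker_subtype _)⟩

theorem card_le_finrank_of_mem {D : Type*} [AddCommGroup D] [Module K D]
    [FiniteDimensional K D] (J : Submodule K D) {m : ℕ} (b : Fin m → D) (hb : ∀ i, b i ∈ J)
    (hli : LinearIndependent K b) : m ≤ Module.finrank K J := by
  have h10 : LinearIndependent K (fun i => (⟨b i, hb i⟩ : J)) := by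
    apply LinearIndependent.of_comp J.subtype
    exact hli
  simpa using h10.fintype_card_le_finrank

theorem le_finrank_tanSp_closure [Infinite K] [FiniteDimensional K V]
    {S S0 : Set (Gr K V k)} (hS0 : S0 ⊆ S) (r : ℕ)
    (h : ∀ M ∈ S0, r ≤ Module.finrank K (tanSp S M))
    {L : Gr K V k} (hLS : L ∈ S) (hL : L ∈ closure S0) :
    r ≤ Module.finrank K (tanSp S L) := by
  by_contra hlt
  push Not at hlt
  obtain ⟨v, hv⟩ := exists_isFrame L (Or.inr inferInstance)
  have h1 := finrank_tanAt hLS hv
  have h2 := finrank_jac_add S v
  obtain ⟨m, hm⟩ : ∃ m, Module.finrank K (jac S v) = m := ⟨_, rfl⟩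
  rw [hm] at h2
  obtain ⟨b, hbJ, hbli⟩ := exists_li_of_finrank (jac S v) hm
  have h3 : ∀ i, ∃ f, VanOn f S ∧ differential v f = b i := by
    intro i
    obtain ⟨f, hf, hfb⟩ := hbJ i
    exact ⟨f, hf, hfb⟩
  choose f hf hfb using h3
  have h4 : LinearIndependent K (fun i => differential v (f i)) := by
    have : (fun i => differential v (f i)) = b := by
      funext i
      exact hfb i
    rw [this]
    exact hbli
  obtain ⟨w, hw⟩ := exists_dual_vectors _ h4
  let Δ : MvPolynomial (Module.Dual K (Fin k → V)) K :=
    Matrix.det (Matrix.of fun i j => dirD K (w j) (f i))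
  have hΔ : ∀ u, evalAt K u Δ = Matrix.det (Matrix.of fun i j => differential u (f i) (w j)) := by
    intro u
    simp only [Δ]
    rw [RingHom.map_det]
    rfl
  have hΔv : evalAt K v Δ = 1 := by
    rw [hΔ]
    have : (Matrix.of fun i j => differential v (f i) (w j))
        = (1 : Matrix (Fin m) (Fin m) K) := by
      ext i j
      rw [Matrix.of_apply, hw, Matrix.one_apply]
    rw [this, Matrix.det_one]
  have hvan : VanOn Δ S0 := by
    intro M hM u hu
    by_contra hne
    have h5 : LinearIndependent K (fun i => differential u (f i)) := by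
      rw [Fintype.linearIndependent_iff]
      intro c hc
      have h6 : Matrix.vecMul c (Matrix.of fun i j => differential u (f i) (w j)) = 0 := by
        ext j
        have h7 := LinearMap.congr_fun hc (w j)
        simp only [LinearMap.coe_sum, Finset.sum_apply, LinearMap.smul_apply, smul_eq_mul,
          LinearMap.zero_apply] at h7
        simp only [Matrix.vecMul, dotProduct, Matrix.of_apply, Pi.zero_apply]
        exact h7
      rw [hΔ] at hne
      have h8 := Matrix.eq_zero_of_vecMul_eq_zero hne h6
      intro i
      rw [h8]; rfl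
    have h9 : m ≤ Module.finrank K (jac S u) :=
      card_le_finrank_of_mem (jac S u) _ (fun i => ⟨f i, hf i, rfl⟩) h5
    have h11 := finrank_jac_add S u
    have h12 := finrank_tanAt (hS0 hM) hu
    have h13 := h M hM
    omega
  have := hvan.closure L hL v hv
  rw [hΔv] at this
  exact one_ne_zero this

end Pool.Agent.Lib.MP_4a09cd_ag
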