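import Pool.Agent.Lib.MP_4a09cd_ag.Frames

set_option autoImplicit false

open MvPolynomial

namespace Pool.Agent.Lib.MP_4a09cd_ag

universe u v

variable {K : Type u} [Field K]
variable {V : Type v} [AddCommGroup V] [Module K V] {k : ℕ}

/-- The Zariski tangent space at the frame `v` of the cone of frames of `S`. -/
noncomputable def tanAt (S : Set (Gr K V k)) (v : Fin k → V) : Submodule K (Fin k → V) where
  carrier := {w | ∀ f, VanOn f S → evalAt K v (dirD K w f) = 0}
  zero_mem' := by
    intro f _
    have := (differential v f).map_zero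
    exact this
  add_mem' := by
    intro a b ha hb f hf
    rw [dirD_add, map_add, ha f hf, hb f hf, add_zero]
  smul_mem' := by
    intro c a ha f hf
    have := (differential v f).map_smul c a
    rw [differential_apply, differential_apply, ha f hf, smul_zero] at this
    exact this

theorem mem_tanAt {S : Set (Gr K V k)} {v w : Fin k → V} :
    w ∈ tanAt S v ↔ ∀ f, VanOn f S → evalAt K v (dirD K w f) = 0 := Iff.rfl

theorem act_mem_tanAt {S : Set (Gr K V k)} {v w : Fin k → V} (hw : w ∈ tanAt S v)
    {A : Matrix (Fin k) (Fin k) K} (hA : IsUnit A.det) : act A w ∈ tanAt S (act A v) := by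
  intro f hf
  rw [← dirD_pullback]
  exact hw _ (hf.pullback_act hA)

/-- Directions inside `L` are tangent. -/
theorem act_mem_tanAt_self [Infinite K] {S : Set (Gr K V k)} {L : Gr K V k} (hL : L ∈ S)
    {v : Fin k → V} (hv : IsFrame v L) (B : Matrix (Fin k) (Fin k) K) :
    act B v ∈ tanAt S v := by
  intro f hf
  let q : Polynomial K := Matrix.det
    ((1 : Matrix (Fin k) (Fin k) (Polynomial K)) + (Polynomial.X : Polynomial K) •
      B.map (fun b => (Polynomial.C b : Polynomial K)))
  have hq : ∀ t : K, q.eval t = Matrix.det ((1 : Matrix (Fin k) (Fin k) K) + t • B) := by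
    intro t
    have h1 : q.eval t = (Polynomial.evalRingHom t) q := rfl
    rw [h1, RingHom.map_det]
    congr 1
    ext i j
    simp [Matrix.one_apply, apply_ite]
    exact mul_comm _ _
  have hq0 : q ≠ 0 := by
    intro h0
    have := hq 0
    rw [h0] at this
    simp at this
  have key := dirD_eq_zero_of_path f ![v, act B v, 0, 0] q hq0 (by
    intro t ht
    rw [hq] at ht
    have h2 : (![v, act B v, 0, 0] : Fin 4 → (Fin k → V)) 0
        + t • (![v, act B v, 0, 0] : Fin 4 → (Fin k → V)) 1
        + t ^ 2 • (![v, act B v, 0, 0] : Fin 4 → (Fin k → V)) 2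
        + t ^ 3 • (![v, act B v, 0, 0] : Fin 4 → (Fin k → V)) 3 = act (1 + t • B) v := by
      have h3 : act (1 + t • B) v = v + t • act B v := by
        have h4 := act_one (K := K) v
        ext i
        have h5 := congrFun h4 i
        rw [act_apply] at h5
        simp only [act_apply, Matrix.add_apply, Matrix.smul_apply, add_smul,
          Finset.sum_add_distrib, Pi.add_apply, Pi.smul_apply, Finset.smul_sum, smul_assoc]
        rw [h5]
      rw [h3]
      simp
    rw [h2]
    exact hf L hL _ (hv.act (isUnit_iff_ne_zero.mpr ht)))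
  exact key

theorem mem_tanAt_of_mem [Infinite K] {S : Set (Gr K V k)} {L : Gr K V k} (hL : L ∈ S)
    {v w : Fin k → V} (hv : IsFrame v L) (hw : ∀ i, w i ∈ L.space) : w ∈ tanAt S v := by
  obtain ⟨B, rfl⟩ := exists_act_eq hv hw
  exact act_mem_tanAt_self hL hv B

theorem isTangent_iff [Infinite K] {S : Set (Gr K V k)} {L : Gr K V k} (hL : L ∈ S)
    {v w : Fin k → V} (hv : IsFrame v L) {φ : L.space →ₗ[K] V ⧸ L.space}
    (hw : ∀ i, L.space.mkQ (w i) = φ ⟨v i, hv.mem i⟩) :
    IsTan S L φ ↔ w ∈ tanAt S v := by
  constructor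
  · intro h
    exact h v w hv (fun i _ => hw i)
  · intro h v' w' hv' hw'
    obtain ⟨A, hA, rfl⟩ := exists_act_eq_of_isFrame hv hv'
    have h1 : act A w ∈ tanAt S (act A v) := act_mem_tanAt h hA
    have h2 : w' - act A w ∈ tanAt S (act A v) := by
      apply mem_tanAt_of_mem hL hv'
      intro i
      have h3 : (⟨act A v i, hv'.mem i⟩ : L.space) = ∑ j, A i j • ⟨v j, hv.mem j⟩ := by
        apply Subtype.ext
        simp [act_apply]
      rw [← Submodule.Quotient.mk_eq_zero, ← Submodule.mkQ_apply, Pi.sub_apply, map_sub,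
        hw' i (hv'.mem i), sub_eq_zero, h3, map_sum, act_apply, map_sum]
      refine Finset.sum_congr rfl fun j _ => ?_
      rw [map_smul, map_smul, hw j]
    have h4 := Submodule.add_mem _ h2 h1
    rw [sub_add_cancel] at h4
    exact h4

/-- The basis of `L` given by a frame. -/
noncomputable def IsFrame.basis {v : Fin k → V} {L : Gr K V k} (h : IsFrame v L) :
    Module.Basis (Fin k) K L.space :=
  Module.Basis.mk (v := fun i => (⟨v i, h.mem i⟩ : L.space))
    (by
      apply LinearIndependent.of_comp L.space.subtype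
      exact h.1)
    (by
      rw [top_le_iff]
      apply Submodule.map_injective_of_injective L.space.injective_subtype
      rw [Submodule.map_span, Submodule.map_top, Submodule.range_subtype]
      refine Eq.trans ?_ h.2
      congr 1
      ext x
      simp)

theorem IsFrame.basis_apply {v : Fin k → V} {L : Gr K V k} (h : IsFrame v L) (i : Fin k) :
    h.basis i = ⟨v i, h.mem i⟩ := by
  simp [IsFrame.basis]

/-- The linear map sending a tuple `w` to the homomorphism `L → V/L`, `v i ↦ w i`. -/
noncomputable def liftMap {v : Fin k → V} {L : Gr K V k} (h : IsFrame v L) :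
    (Fin k → V) →ₗ[K] (L.space →ₗ[K] V ⧸ L.space) :=
  (h.basis.constr K).toLinearMap ∘ₗ (LinearMap.compLeft L.space.mkQ (Fin k))

theorem liftMap_apply {v : Fin k → V} {L : Gr K V k} (h : IsFrame v L) (w : Fin k → V)
    (i : Fin k) : liftMap h w ⟨v i, h.mem i⟩ = L.space.mkQ (w i) := by
  rw [← h.basis_apply i]
  simp [liftMap]

theorem liftMap_surjective {v : Fin k → V} {L : Gr K V k} (h : IsFrame v L) :
    Function.Surjective (liftMap h) := by
  intro φ
  have : ∀ i, ∃ x, L.space.mkQ x = φ ⟨v i, h.mem i⟩ := fun i => L.space.mkQ_surjective _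
  choose w hw using this
  refine ⟨w, ?_⟩
  apply h.basis.ext
  intro i
  rw [h.basis_apply, liftMap_apply, hw]

theorem isTangent_liftMap_iff [Infinite K] {S : Set (Gr K V k)} {L : Gr K V k} (hL : L ∈ S)
    {v w : Fin k → V} (hv : IsFrame v L) :
    IsTan S L (liftMap hv w) ↔ w ∈ tanAt S v :=
  isTangent_iff hL hv (fun i => (liftMap_apply hv w i).symm)

/-- For `L ∈ S` the set of tangent vectors is a linear subspace. -/
theorem mem_tanSp_iff [Infinite K] {S : Set (Gr K V k)} {L : Gr K V k} (hL : L ∈ S)
    (hex : ∃ v : Fin k → V, IsFrame v L) (φ : L.space →ₗ[K] V ⧸ L.space) :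
    φ ∈ tanSp S L ↔ IsTan S L φ := by
  obtain ⟨v, hv⟩ := hex
  constructor
  · intro h
    have h1 : (tanSp S L) ≤ (tanAt S v).map (liftMap hv) := by
      rw [tanSp, Submodule.span_le]
      intro φ hφ
      obtain ⟨w, rfl⟩ := liftMap_surjective hv φ
      exact ⟨w, (isTangent_liftMap_iff hL hv).mp hφ, rfl⟩
    obtain ⟨w, hw, rfl⟩ := h1 h
    exact (isTangent_liftMap_iff hL hv).mpr hw
  · intro h
    exact Submodule.subset_span h

theorem tanAt_eq_comap [Infinite K] {S : Set (Gr K V k)} {L : Gr K V k} (hL : L ∈ S)
    {v : Fin k → V} (hv : IsFrame v L) :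
    tanAt S v = (tanSp S L).comap (liftMap hv) := by
  ext w
  rw [Submodule.mem_comap, mem_tanSp_iff hL ⟨v, hv⟩, isTangent_liftMap_iff hL hv]

theorem finrank_comap_of_surjective {E F : Type*} [AddCommGroup E] [Module K E]
    [FiniteDimensional K E] [AddCommGroup F] [Module K F] (g : E →ₗ[K] F)
    (hg : Function.Surjective g) (q : Submodule K F) :
    Module.finrank K (q.comap g) + Module.finrank K F
      = Module.finrank K q + Module.finrank K E := by
  have h1 := LinearMap.finrank_range_add_finrank_ker (g.domRestrict (q.comap g))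
  have h2 := LinearMap.finrank_range_add_finrank_ker g
  have h3 : LinearMap.range (g.domRestrict (q.comap g)) = q := by
    ext x
    constructor
    · rintro ⟨⟨y, hy⟩, rfl⟩
      exact hy
    · intro hx
      obtain ⟨y, rfl⟩ := hg x
      exact ⟨⟨y, hx⟩, rfl⟩
  have h4 : Module.finrank K (LinearMap.ker (g.domRestrict (q.comap g)))
      = Module.finrank K (LinearMap.ker g) := by
    have h5 : LinearMap.ker g ≤ q.comap g := by
      intro x hx
      rw [Submodule.mem_comap, LinearMap.mem_ker.mp hx]
      exact q.zero_mem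
    have h6 : LinearMap.ker (g.domRestrict (q.comap g))
        = (LinearMap.ker g).comap (q.comap g).subtype := by
      ext x; simp
    rw [h6]
    exact (Submodule.comapSubtypeEquivOfLe h5).finrank_eq
  rw [h3, h4] at h1
  rw [LinearMap.range_eq_top.mpr hg, finrank_top] at h2
  omega

theorem finrank_tanAt [Infinite K] [FiniteDimensional K V] {S : Set (Gr K V k)} {L : Gr K V k}
    (hL : L ∈ S) {v : Fin k → V} (hv : IsFrame v L) :
    Module.finrank K (tanAt S v)
      = Module.finrank K (tanSp S L) + k * k := by
  have h := finrank_comap_of_surjective (liftMap hv) (liftMap_surjective hv) (tanSp S L)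
  rw [← tanAt_eq_comap hL hv] at h
  have h1 : Module.finrank K (L.space →ₗ[K] V ⧸ L.space)
      = k * Module.finrank K (V ⧸ L.space) := by
    rw [Module.finrank_linearMap, L.finrank_space]
  have h2 : Module.finrank K (Fin k → V) = k * Module.finrank K V := by
    rw [Module.finrank_pi_fintype]; simp
  have h3 := Submodule.finrank_quotient_add_finrank L.space
  rw [L.finrank_space] at h3
  rw [h1, h2, ← h3] at h
  have : k * (Module.finrank K (V ⧸ L.space) + k) = k * Module.finrank K (V ⧸ L.space) + k * k :=
    by ring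
  omega

end Pool.Agent.Lib.MP_4a09cd_ag
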